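import Pool.Agent.H153R2.Family

set_option autoImplicit false
set_option linter.unusedSectionVars false

open Finset Topology

namespace Pool.Agent.H153R2.Simplex

variable {ι : Type} [Fintype ι] [DecidableEq ι]

variable {C : Set (ι → ℝ)} {tp tm : ℝ}

/-- The goal condition for a family `L`. -/
def Good (C : Set (ι → ℝ)) (L : Finset ((ι → ℝ) × (ι → ℝ))) (u : ι → ℝ) : Prop :=
  (∃ p ∈ L, ∀ y ∈ F C u, 0 < dp p.1 y) ∨
      (∃ p ∈ L, ∃ T, Ch u T ∧ ∀ δ : ℝ, 0 < δ → δ < 1 → ∑ i, (p.1 + δ • p.2) i = 0 ∧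
        (∀ i ∈ T, 0 < (p.1 + δ • p.2) i) ∧ (∀ i ∉ T, (p.1 + δ • p.2) i < 0))

/-- Condition (α). -/
def Alpha (C : Set (ι → ℝ)) (tp : ℝ) : Prop :=
  ∀ y ∈ C, ∀ i j, i ≠ j → y i + y j ≤ tp * (1 - 2 / (Fintype.card ι : ℝ))

/-- The exact perturbation of the pair vector. -/
def Bp (a b : ι) : ι → ℝ := fun x => (if x = b then 1 else 0) - (if x = a then 1 else 0)

theorem sum_Bp (a b : ι) : ∑ i, Bp a b i = 0 := by
  simp [Bp]

theorem exact_P {a b : ι} (hab : a ≠ b) (hN : 3 ≤ Fintype.card ι) {δ : ℝ}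
    (h0 : 0 < δ) (h1 : δ < 1) : ∑ i, (P a b + δ • Bp a b) i = 0 ∧
      (∀ i ∈ ({b, a} : Finset ι), 0 < (P a b + δ • Bp a b) i) ∧
      (∀ i ∉ ({b, a} : Finset ι), (P a b + δ • Bp a b) i < 0) := by
  have hN' : (3 : ℝ) ≤ Fintype.card ι := by exact_mod_cast hN
  refine ⟨?_, fun i hi => ?_, fun i hi => ?_⟩
  · simp only [Pi.add_apply, Pi.smul_apply, smul_eq_mul, sum_add_distrib, ← mul_sum, sum_P, sum_Bp,
      mul_zero, add_zero]
  · simp only [Pi.add_apply, Pi.smul_apply, smul_eq_mul]
    rw [mem_insert, mem_singleton] at hi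
    rcases hi with rfl | rfl
    · rw [P_b hab]; simp [Bp, hab.symm, h0]
    · rw [P_a hab]; simp only [Bp, if_neg hab, if_true]; linarith
  · simp only [Pi.add_apply, Pi.smul_apply, smul_eq_mul]
    rw [mem_insert, mem_singleton, not_or] at hi
    rw [P_ne hi.2 hi.1]; simp [Bp, hi.1, hi.2]

/-- Every coordinate is at most `t₊ (1 - 1/N)`. -/
theorem coord_le (hC : Body C) (hP : Par C tp tm) (hN : 2 ≤ Fintype.card ι) {y : ι → ℝ}
    (hy : y ∈ C) (i : ι) : y i ≤ tp * (1 - 1 / (Fintype.card ι : ℝ)) ∧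
      -(tm * (1 - 1 / (Fintype.card ι : ℝ))) ≤ y i := by
  have hN' : (2 : ℝ) ≤ Fintype.card ι := by exact_mod_cast hN
  obtain ⟨m, hm⟩ : ∃ m : ι, m ≠ i := by
    by_contra hcon; push Not at hcon
    have : Fintype.card ι ≤ 1 := Fintype.card_le_one_iff.2 fun a b => by rw [hcon a, hcon b]
    omega
  have hne : (univ.erase i).Nonempty := ⟨m, mem_erase.2 ⟨hm, mem_univ m⟩⟩
  have h1 := avg_mem hC hy (univ.erase i) hne
  set z : ι → ℝ := fun k => if k ∈ univ.erase i then
    (∑ j ∈ univ.erase i, y j) / (univ.erase i).card else y k with hz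
  have hzi : z i = y i := by simp [hz]
  have h2 := const_off (i := i) (hC.sum0 z h1) (θ := (∑ j ∈ univ.erase i, y j) /
    (univ.erase i).card) (fun j hj => by simp [hz, hj])
  set s := z i - (∑ j ∈ univ.erase i, y j) / (univ.erase i).card with hs
  rw [h2] at h1
  have h3 := hP.tp_max i _ h1
  have h4 := hP.tm_max i _ h1
  have h5 : y i = s * (1 - 1 / (Fintype.card ι : ℝ)) := by
    have := congrFun h2 i
    rw [hzi, Pi.smul_apply, smul_eq_mul, eh_self] at this
    exact this
  have hpos : 0 ≤ 1 - 1 / (Fintype.card ι : ℝ) := by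
    have : 1 / (Fintype.card ι : ℝ) ≤ 1 := by rw [div_le_one (by linarith)]; linarith
    linarith
  rw [h5]
  constructor
  · exact mul_le_mul_of_nonneg_right h3 hpos
  · have := mul_le_mul_of_nonneg_right h4 hpos
    linarith

theorem dp_eh_left {y : ι → ℝ} (hy : ∑ i, y i = 0) (i : ι) : dp (eh i : ι → ℝ) y = y i := by
  have : dp (eh i : ι → ℝ) y = dp y (eh i) := by
    unfold dp; exact sum_congr rfl fun i _ => mul_comm _ _
  rw [this, dp_eh hy]

/-- A functional with a one-element top class and constant otherwise. -/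
theorem eq_smul_eh {u : ι → ℝ} (hu : ∑ i, u i = 0) {i : ι} (h : nbot u = {i}) :
    ∃ c : ℝ, 0 < c ∧ u = c • (eh i : ι → ℝ) := by
  obtain ⟨m, hm⟩ := exists_bot u i
  have hoff : ∀ j, j ≠ i → u j = u m := by
    intro j hj
    have : j ∉ nbot u := by rw [h]; simpa using hj
    rw [mem_nbot] at this
    push Not at this
    exact le_antisymm (this m) (hm j)
  have hi : i ∈ nbot u := by rw [h]; simp
  obtain ⟨j, hj⟩ := mem_nbot.1 hi
  exact ⟨u i - u m, by linarith [hm j], const_off hu hoff⟩

/-- Under (α) the face in the direction `ê_i` is a single point. -/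
theorem alpha_face (hC : Body C) (hP : Par C tp tm) (hN : 3 ≤ Fintype.card ι) (hα : Alpha C tp)
    {u : ι → ℝ} (hu : ∑ i, u i = 0) {i : ι} (h : nbot u = {i}) {y : ι → ℝ} (hy : y ∈ F C u) :
    y = tp • (eh i : ι → ℝ) := by
  have hN' : (3 : ℝ) ≤ Fintype.card ι := by exact_mod_cast hN
  have hNpos : (0 : ℝ) < Fintype.card ι := by linarith
  obtain ⟨c, hc, hcu⟩ := eq_smul_eh hu h
  rw [hcu, F_smul hc] at hy
  have h1 := hy.2 _ (hP.tp_mem i)
  rw [dp_eh_left (hC.sum0 y hy.1), dp_eh_left (hC.sum0 _ (hP.tp_mem i)), Pi.smul_apply,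
    smul_eq_mul, eh_self] at h1
  have h2 : ∀ j ∈ univ.erase i, y j ≤ -(tp / Fintype.card ι) := by
    intro j hj
    have := hα y hy.1 i j (ne_of_mem_erase hj).symm
    have e : tp * (1 - 2 / (Fintype.card ι : ℝ)) - tp * (1 - 1 / (Fintype.card ι : ℝ)) =
      -(tp / Fintype.card ι) := by field_simp; ring
    linarith
  have hsum : ∑ j ∈ univ.erase i, y j = -y i := by
    have h := add_sum_erase univ y (mem_univ i)
    have h0 := hC.sum0 _ hy.1
    linarith
  have hcoord := (coord_le hC hP (by omega) hy.1 i).1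
  have hyi : y i = tp * (1 - 1 / (Fintype.card ι : ℝ)) := le_antisymm hcoord h1
  have heq : ∀ j ∈ univ.erase i, y j = -(tp / Fintype.card ι) := by
    refine (sum_eq_sum_iff_of_le h2).1 ?_
    rw [hsum, hyi, sum_const, nsmul_eq_mul, card_erase_of_mem (mem_univ i), card_univ,
      Nat.cast_sub (by omega)]
    push_cast
    field_simp
  funext j
  rw [Pi.smul_apply, smul_eq_mul]
  by_cases hj : j = i
  · subst hj; rw [eh_self, hyi]
  · rw [eh_ne hj, heq j (mem_erase.2 ⟨hj, mem_univ j⟩)]; ring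

theorem alpha_tm (hP : Par C tp tm) (hN : 3 ≤ Fintype.card ι) (hα : Alpha C tp) (l : ι) :
    2 * tm ≤ tp * (Fintype.card ι - 2) := by
  have hN' : (3 : ℝ) ≤ Fintype.card ι := by exact_mod_cast hN
  have hNpos : (0 : ℝ) < Fintype.card ι := by linarith
  obtain ⟨i, hi, j, hj, hij⟩ : ∃ i ∈ univ.erase l, ∃ j ∈ univ.erase l, i ≠ j := by
    have : 1 < (univ.erase l).card := by
      rw [card_erase_of_mem (mem_univ l), card_univ]; omega
    obtain ⟨i, hi, j, hj, hij⟩ := one_lt_card.1 this
    exact ⟨i, hi, j, hj, hij⟩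
  have := hα _ (hP.tm_mem l) i j hij
  rw [Pi.smul_apply, smul_eq_mul, Pi.smul_apply, smul_eq_mul, eh_ne (ne_of_mem_erase hi),
    eh_ne (ne_of_mem_erase hj)] at this
  have e : -tm * -(1 / (Fintype.card ι : ℝ)) + -tm * -(1 / (Fintype.card ι : ℝ)) =
    (2 * tm) / Fintype.card ι := by ring
  have e2 : tp * (1 - 2 / (Fintype.card ι : ℝ)) = (tp * (Fintype.card ι - 2)) / Fintype.card ι := by
    field_simp
  rw [e, e2] at this
  exact (div_le_div_iff_of_pos_right hNpos).1 this

theorem exists_perm {i j i0 j0 : ι} (hij : i ≠ j) (h0 : i0 ≠ j0) :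
    ∃ σ : Equiv.Perm ι, σ i = i0 ∧ σ j = j0 := by
  refine ⟨Equiv.swap (Equiv.swap i i0 j) j0 * Equiv.swap i i0, ?_, ?_⟩
  · rw [Equiv.Perm.mul_apply, Equiv.swap_apply_left, Equiv.swap_apply_of_ne_of_ne]
    · intro h
      apply hij
      have h2 := congrArg (Equiv.swap i i0) h
      rw [Equiv.swap_apply_self, Equiv.swap_apply_right] at h2
      exact h2
    · exact h0
  · rw [Equiv.Perm.mul_apply, Equiv.swap_apply_left]

/-- If (α) fails, a functional whose face contains `p_i` has top class `{i}`. -/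
theorem not_alpha (hC : Body C) (hP : Par C tp tm) (hN : 3 ≤ Fintype.card ι) (hα : ¬ Alpha C tp)
    {u : ι → ℝ} (hu : ∑ i, u i = 0) (hu0 : u ≠ 0) {i : ι} (h : Pf C tp u i) :
    ∀ j, j ≠ i → u j < u i := by
  intro j hj
  refine lt_of_le_of_ne (Pf_max hP hu h j) fun heq => hα ?_
  intro y0 hy0 i0 j0 h0
  by_contra hcon
  push Not at hcon
  have hN' : (3 : ℝ) ≤ Fintype.card ι := by exact_mod_cast hN
  have hNpos : (0 : ℝ) < Fintype.card ι := by linarith
  obtain ⟨σ, hσi, hσj⟩ := exists_perm hj.symm h0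
  have hy := hC.perm σ y0 hy0
  set y : ι → ℝ := fun k => y0 (σ k) with hydef
  have hyij : tp * (1 - 2 / (Fintype.card ι : ℝ)) < y i + y j := by
    simp only [hydef, hσi, hσj]; exact hcon
  have hS : ({i, j} : Finset ι).Nonempty := ⟨i, by simp⟩
  have hv1 := avg_mem hC hy {i, j} hS
  have hcard2 : (({i, j} : Finset ι).card : ℝ) = 2 := by
    rw [card_pair hj.symm]; norm_num
  rw [sum_pair hj.symm, hcard2] at hv1
  set m : ℝ := (y i + y j) / 2 with hm
  set v1 : ι → ℝ := fun k => if k ∈ ({i, j} : Finset ι) then m else y k with hv1def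
  have hcompl : (univ \ ({i, j} : Finset ι)).card = Fintype.card ι - 2 := by
    rw [card_sdiff_of_subset (subset_univ _), card_univ, card_pair hj.symm]
  have hne : (univ \ ({i, j} : Finset ι)).Nonempty := by
    rw [← card_pos, hcompl]; omega
  have hv2 := avg_mem hC hv1 (univ \ ({i, j} : Finset ι)) hne
  have hsum1 : ∑ k ∈ univ \ ({i, j} : Finset ι), v1 k = -(2 * m) := by
    have h1 := sum_sdiff (f := v1) (subset_univ ({i, j} : Finset ι))
    rw [hC.sum0 _ hv1, sum_pair hj.symm] at h1
    have e1 : v1 i = m := by simp [hv1def]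
    have e2 : v1 j = m := by simp [hv1def]
    rw [e1, e2] at h1
    linarith
  rw [hsum1, hcompl, Nat.cast_sub (by omega)] at hv2
  push_cast at hv2
  have hval := h.2 _ hv2
  rw [dp_smul_eh hu] at hval
  have hN2 : (0 : ℝ) < Fintype.card ι - 2 := by linarith
  have hdp : dp u (fun k => if k ∈ univ \ ({i, j} : Finset ι) then -(2 * m) / (Fintype.card ι - 2)
      else v1 k) = 2 * m * (Fintype.card ι / (Fintype.card ι - 2)) * u i := by
    unfold dp
    rw [← sum_sdiff (subset_univ ({i, j} : Finset ι))]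
    have e1 : ∑ k ∈ univ \ ({i, j} : Finset ι), u k * (if k ∈ univ \ ({i, j} : Finset ι) then
        -(2 * m) / (Fintype.card ι - 2) else v1 k) =
        (∑ k ∈ univ \ ({i, j} : Finset ι), u k) * (-(2 * m) / (Fintype.card ι - 2)) := by
      rw [sum_mul]
      exact sum_congr rfl fun k hk => by rw [if_pos hk]
    have e2 : ∑ k ∈ univ \ ({i, j} : Finset ι), u k = -(u i + u j) := by
      have h1 := sum_sdiff (f := u) (subset_univ ({i, j} : Finset ι))
      rw [hu, sum_pair hj.symm] at h1
      linarith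
    rw [e1, e2, sum_pair hj.symm]
    simp only [mem_sdiff, mem_univ, mem_insert, true_or, mem_singleton, or_true,
      not_true_eq_false, and_false, if_false]
    have e3 : v1 i = m := by simp [hv1def]
    have e4 : v1 j = m := by simp [hv1def]
    rw [e3, e4, heq]
    field_simp
    ring
  rw [hdp] at hval
  have hui := Pf_pos hC hP hu hu0 h
  have h5 := le_of_mul_le_mul_right hval hui
  have h6 : tp < 2 * m * (Fintype.card ι / (Fintype.card ι - 2)) := by
    have h7 : tp * (1 - 2 / (Fintype.card ι : ℝ)) < 2 * m := by rw [hm]; linarith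
    have h8 : (0 : ℝ) < Fintype.card ι / (Fintype.card ι - 2) := by positivity
    have h9 := mul_lt_mul_of_pos_right h7 h8
    have e : tp * (1 - 2 / (Fintype.card ι : ℝ)) * (Fintype.card ι / (Fintype.card ι - 2)) = tp := by
      field_simp
    linarith
  linarith

theorem not_mem_nbot (hP : Par C tp tm) {u : ι → ℝ} (hu : ∑ i, u i = 0) {i : ι}
    (h : Qf C tm u i) : i ∉ nbot u := by
  rw [mem_nbot]; push Not
  exact Qf_min hP hu h

/-- pick an element. -/
noncomputable def pk (l : ι) (T : Finset ι) : ι := by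
  classical exact if h : T.Nonempty then h.choose else l

theorem pk_singleton (l i : ι) : pk l {i} = i := by
  unfold pk
  rw [dif_pos (singleton_nonempty i)]
  exact mem_singleton.1 (singleton_nonempty i).choose_spec

/-- The family of case (α). -/
noncomputable def fα (tp tm : ℝ) (l : ι) (T0 : Finset ι) : (ι → ℝ) × (ι → ℝ) := by
  classical exact
    if T0.card = 1 then (P l (pk l T0), Bp l (pk l T0)) else (A l T0, ty tp tm l T0)

theorem strict_alpha (hC : Body C) (hP : Par C tp tm) (hN : 4 ≤ Fintype.card ι)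
    (hα : Alpha C tp) (l : ι) :
    ∃ W : Finset (ι → ℝ), W.card ≤ 2 ^ (Fintype.card ι - 1) - 1 ∧ ∃ η : ℝ, 0 < η ∧
      ∀ u : ι → ℝ, ∑ i, u i = 0 → u ≠ 0 → ∃ w ∈ W, ∀ y ∈ F C u, η < dp w y := by
  classical
  set L : Finset ((ι → ℝ) × (ι → ℝ)) := ((univ.erase l).powerset.erase ∅).image (fα tp tm l)
    with hL
  have hLcard : L.card ≤ 2 ^ (Fintype.card ι - 1) - 1 := by
    refine card_image_le.trans ?_
    rw [card_erase_of_mem (empty_mem_powerset _), card_powerset, card_erase_of_mem (mem_univ l),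
      card_univ]
  suffices h : ∀ u : ι → ℝ, ∑ i, u i = 0 → u ≠ 0 → Good C L u by
    obtain ⟨W, hW, hη⟩ := compactness hC L h
    exact ⟨W, hW.trans hLcard, hη⟩
  intro u hu hu0
  have hN' : (4 : ℝ) ≤ Fintype.card ι := by exact_mod_cast hN
  have hmemL : ∀ T0 : Finset ι, l ∉ T0 → T0.Nonempty → fα tp tm l T0 ∈ L := by
    intro T0 h h2
    refine mem_image_of_mem _ (mem_erase.2 ⟨h2.ne_empty, mem_powerset.2 fun i hi =>
      mem_erase.2 ⟨?_, mem_univ i⟩⟩)
    rintro rfl; exact h hi
  have hmem1 : ∀ i : ι, i ≠ l → (P l i, Bp l i) ∈ L := by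
    intro i hi
    have := hmemL {i} (by simpa using hi.symm) (singleton_nonempty i)
    simpa [fα, pk_singleton] using this
  have hmem2 : ∀ T0 : Finset ι, l ∉ T0 → 2 ≤ T0.card → (A l T0, ty tp tm l T0) ∈ L := by
    intro T0 h h2
    have := hmemL T0 h (card_pos.1 (by omega))
    have h3 : T0.card ≠ 1 := by omega
    simpa [fα, h3] using this
  -- the exact pair
  have exP : ∀ i : ι, i ≠ l → Ch u {i, l} → Good C L u := by
    intro i hi hT
    right
    exact ⟨_, hmem1 i hi, {i, l}, hT, fun δ hδ hδ' => exact_P hi.symm (by omega) hδ hδ'⟩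
  have exU : ∀ T0 : Finset ι, l ∉ T0 → T0 ≠ univ.erase l → 2 ≤ T0.card → Ch u (insert l T0) →
      tm * (T0.card + 1) ≤ tp * (Fintype.card ι - (T0.card + 1)) → Good C L u := by
    intro T0 h1 h2 h2' h3 h4
    right
    refine ⟨_, hmem2 T0 h1 h2', insert l T0, h3, fun δ hδ hδ' => ?_⟩
    simp only [ty, if_pos h4]
    exact exact_U h1 h2 hδ hδ'
  have exD : ∀ T0 : Finset ι, l ∉ T0 → 2 ≤ T0.card → Ch u T0 →
      ¬ (tm * (T0.card + 1) ≤ tp * (Fintype.card ι - (T0.card + 1))) → Good C L u := by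
    intro T0 h1 h2' h3 h4
    right
    refine ⟨_, hmem2 T0 h1 h2', T0, h3, fun δ hδ hδ' => ?_⟩
    simp only [ty, if_neg h4]
    exact exact_D h1 h3.1 hδ hδ'
  have hfull : ¬ (tm * (((univ.erase l : Finset ι).card : ℝ) + 1) ≤
      tp * (Fintype.card ι - (((univ.erase l : Finset ι).card : ℝ) + 1))) := by
    rw [card_erase_of_mem (mem_univ l), card_univ, Nat.cast_sub (by omega)]
    push_cast
    have := hP.tm_pos
    have h3 : 0 < tm * ((Fintype.card ι : ℝ) - 1 + 1) := by
      have : (Fintype.card ι : ℝ) - 1 + 1 = Fintype.card ι := by ring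
      rw [this]; positivity
    intro h
    have h4 : tp * ((Fintype.card ι : ℝ) - ((Fintype.card ι : ℝ) - 1 + 1)) = 0 := by ring
    linarith
  have hfullcard : 2 ≤ (univ.erase l : Finset ι).card := by
    rw [card_erase_of_mem (mem_univ l), card_univ]; omega
  -- case 1
  by_cases htop : top u = {l}
  · have hTl : Ch u {l} := htop ▸ Ch_top hu hu0
    obtain ⟨i, hil, hqi⟩ : ∃ i, i ≠ l ∧ ¬ Qf C tm u i := by
      by_cases hnb : nbot u = {l}
      · obtain ⟨i, hi, k, hk, hik⟩ : ∃ i ∈ univ.erase l, ∃ j ∈ univ.erase l, i ≠ j := by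
          obtain ⟨i, hi, j, hj, hij⟩ := one_lt_card.1 (lt_of_lt_of_le one_lt_two hfullcard)
          exact ⟨i, hi, j, hj, hij⟩
        refine ⟨i, ne_of_mem_erase hi, fun hq => ?_⟩
        have h1 := alpha_face hC hP (by omega) hα hu hnb hq
        have h2 := congrFun h1 k
        rw [Pi.smul_apply, Pi.smul_apply, smul_eq_mul, smul_eq_mul, eh_ne hik.symm,
          eh_ne (ne_of_mem_erase hk)] at h2
        have h3 : (0 : ℝ) < 1 / Fintype.card ι := by positivity
        have h4 := mul_pos hP.tm_pos h3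
        have h5 := mul_pos hP.tp_pos h3
        linarith
      · obtain ⟨i, hi, hil⟩ : ∃ i ∈ nbot u, i ≠ l := by
          by_contra hcon
          push Not at hcon
          apply hnb
          exact eq_singleton_iff_nonempty_unique_mem.2 ⟨(Ch_nbot hu hu0).1, hcon⟩
        exact ⟨i, hil, fun hq => not_mem_nbot hP hu hq hi⟩
    left
    exact ⟨_, hmem1 i hil, robust_P1 hC hP hu hu0 (by omega) hil.symm hTl hqi⟩
  -- case 2
  by_cases hp : Pf C tp u l
  · have hlt : l ∈ top u := mem_top.2 (Pf_max hP hu hp)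
    have hT := Ch_top hu hu0
    have hins : insert l ((top u).erase l) = top u := insert_erase hlt
    have hne : ((top u).erase l).Nonempty := by
      rw [nonempty_iff_ne_empty]
      intro h0
      apply htop
      rw [← hins, h0, insert_empty_eq]
    by_cases hc1 : ((top u).erase l).card = 1
    · obtain ⟨i, hi⟩ := card_eq_one.1 hc1
      have hil : i ≠ l := ne_of_mem_erase (hi ▸ mem_singleton_self i)
      refine exP i hil ?_
      rw [pair_comm, ← hi, hins]
      exact hT
    · have hc2 : 2 ≤ ((top u).erase l).card := by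
        have := card_pos.2 hne; omega
      refine exU ((top u).erase l) (notMem_erase _ _) ?_ hc2 (by rw [hins]; exact hT) ?_
      · intro h
        rw [h, insert_erase (mem_univ l)] at hins
        exact hT.2.1 hins.symm
      · have hc : (((top u).erase l).card : ℝ) + 1 = (top u).card := by
          have := card_erase_add_one hlt
          exact_mod_cast this
        rw [hc]
        exact L1 hC hP hu hu0 hp
  -- case 3
  by_cases hq : Qf C tm u l
  · have hlt : l ∉ nbot u := not_mem_nbot hP hu hq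
    have h2 := L2 hC hP hu hu0 hq
    have htp := hP.tp_pos
    have htm := hP.tm_pos
    refine exD (nbot u) hlt ?_ (Ch_nbot hu hu0) ?_
    · have h1 : 1 ≤ (nbot u).card := card_pos.2 (Ch_nbot hu hu0).1
      by_contra hcon
      have hc : (nbot u).card = 1 := by omega
      rw [hc] at h2
      push_cast at h2
      have := alpha_tm hP (by omega) hα l
      nlinarith
    · intro h
      nlinarith
  -- case 4
  have H : ∀ T : Finset ι, Ch u T → 2 ≤ T.card → Good C L u := by
    intro T hT hcard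
    by_cases hlT : l ∈ T
    · have hins : insert l (T.erase l) = T := insert_erase hlT
      have hcT := card_erase_add_one hlT
      by_cases hc1 : (T.erase l).card = 1
      · obtain ⟨i, hi⟩ := card_eq_one.1 hc1
        have hil : i ≠ l := ne_of_mem_erase (hi ▸ mem_singleton_self i)
        refine exP i hil ?_
        rw [pair_comm, ← hi, hins]
        exact hT
      · left
        refine ⟨_, hmem2 (T.erase l) (notMem_erase _ _) (by omega), ?_⟩
        refine robust_A hC hP hu hu0 hT (card_pos.1 (by omega)) ?_ hp hq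
        intro h
        rw [h, insert_erase (mem_univ l)] at hins
        exact hT.2.1 hins.symm
    · have he : T.erase l = T := erase_eq_of_notMem hlT
      by_cases hfu : T = univ.erase l
      · subst hfu
        exact exD _ hlT hcard hT hfull
      · left
        refine ⟨_, hmem2 T hlT hcard, ?_⟩
        have := robust_A hC hP hu hu0 hT (by rw [he]; exact hT.1) (by rw [he]; exact hfu) hp hq
        rwa [he] at this
  by_cases hct : 2 ≤ (top u).card
  · exact H _ (Ch_top hu hu0) hct
  by_cases hcb : 2 ≤ (nbot u).card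
  · exact H _ (Ch_nbot hu hu0) hcb
  · have h1 : (top u).card = 1 := by
      have := card_pos.2 (Ch_top hu hu0).1; omega
    have h2 : (nbot u).card = 1 := by
      have := card_pos.2 (Ch_nbot hu hu0).1; omega
    obtain ⟨i, hi⟩ := card_eq_one.1 h2
    have hti : top u = {i} := by
      have h3 := top_subset_nbot hu hu0
      rw [hi] at h3
      exact (subset_singleton_iff.1 h3).resolve_left (Ch_top hu hu0).1.ne_empty
    have hil : i ≠ l := by rintro rfl; exact htop hti
    obtain ⟨j, hj, hji⟩ : ∃ j ∈ univ.erase l, j ≠ i := by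
      have : 1 < (univ.erase l : Finset ι).card := by omega
      obtain ⟨j, hj, hji⟩ := exists_mem_ne this i
      exact ⟨j, hj, hji⟩
    have hjl := ne_of_mem_erase hj
    left
    have hlm : l ∉ ({i, j} : Finset ι) := by simp [hil.symm, hjl.symm]
    have hc : ({i, j} : Finset ι).card = 2 := card_pair hji.symm
    refine ⟨_, hmem2 {i, j} hlm (by rw [hc]), fun y hy => ?_⟩
    rw [alpha_face hC hP (by omega) hα hu hi hy, dp_smul_eh (sum_A l _), A_mem hlm (by simp), hc]
    push_cast
    exact mul_pos hP.tp_pos (by linarith)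

end Pool.Agent.H153R2.Simplex
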