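import Mathlib

set_option autoImplicit false
set_option linter.unusedSectionVars false

open Finset

namespace Pool.Agent.H153R2.Simplex

variable {ι : Type} [Fintype ι] [DecidableEq ι]

/-- The dot product. -/
def dp (w y : ι → ℝ) : ℝ := ∑ i, w i * y i

/-- A convex body in the hyperplane `∑ y = 0`, invariant under permutations of the coordinates. -/
structure Body (C : Set (ι → ℝ)) : Prop where
  cpt : IsCompact C
  cvx : Convex ℝ C
  sum0 : ∀ y ∈ C, ∑ i, y i = 0
  perm : ∀ σ : Equiv.Perm ι, ∀ y ∈ C, (fun i => y (σ i)) ∈ C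
  nhds : ∃ ε > 0, ∀ y : ι → ℝ, ∑ i, y i = 0 → (∀ i, |y i| ≤ ε) → y ∈ C

/-- The face of `C` in the direction `u`. -/
def F (C : Set (ι → ℝ)) (u : ι → ℝ) : Set (ι → ℝ) := {y | y ∈ C ∧ ∀ z ∈ C, dp u z ≤ dp u y}

/-- `T` is a top set of `u`. -/
def Ch (u : ι → ℝ) (T : Finset ι) : Prop :=
  T.Nonempty ∧ T ≠ univ ∧ ∀ i ∈ T, ∀ j ∉ T, u j < u i

theorem dp_neg_left (w y : ι → ℝ) : dp (-w) y = -dp w y := by
  simp [dp]

theorem dp_neg_right (w y : ι → ℝ) : dp w (-y) = -dp w y := by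
  simp [dp]

theorem dp_smul_right (w y : ι → ℝ) (s : ℝ) : dp w (s • y) = s * dp w y := by
  simp only [dp, Pi.smul_apply, smul_eq_mul, mul_sum]
  exact sum_congr rfl fun i _ => by ring

theorem dp_smul_left (w y : ι → ℝ) (s : ℝ) : dp (s • w) y = s * dp w y := by
  simp only [dp, Pi.smul_apply, smul_eq_mul, mul_sum]
  exact sum_congr rfl fun i _ => by ring

theorem dp_add_left (w w' y : ι → ℝ) : dp (w + w') y = dp w y + dp w' y := by
  simp only [dp, Pi.add_apply, add_mul, sum_add_distrib]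

theorem continuous_dp {X : Type*} [TopologicalSpace X] {f g : X → ι → ℝ} (hf : Continuous f)
    (hg : Continuous g) : Continuous fun x => dp (f x) (g x) := by
  unfold dp
  fun_prop

/-! ### Basic facts on faces -/

theorem swap_le {C : Set (ι → ℝ)} (hC : Body C) {u y : ι → ℝ} (hy : y ∈ F C u) {i j : ι}
    (hij : u j < u i) : y j ≤ y i := by
  have hne : i ≠ j := by rintro rfl; exact lt_irrefl _ hij
  have h := hy.2 _ (hC.perm (Equiv.swap i j) y hy.1)
  have key : dp u (fun k => y (Equiv.swap i j k)) - dp u y = (u i - u j) * (y j - y i) := by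
    unfold dp
    rw [← sum_sub_distrib, Fintype.sum_eq_add i j hne]
    · simp only [Equiv.swap_apply_left, Equiv.swap_apply_right]; ring
    · rintro k ⟨hki, hkj⟩
      simp only [Equiv.swap_apply_of_ne_of_ne hki hkj]; ring
  have h2 : (u i - u j) * (y j - y i) ≤ 0 := by rw [← key]; linarith
  by_contra hcon
  push Not at hcon
  have : 0 < (u i - u j) * (y j - y i) := mul_pos (by linarith) (by linarith)
  linarith

theorem dp_pos {C : Set (ι → ℝ)} (hC : Body C) {u y : ι → ℝ} (hu : ∑ i, u i = 0) (hu0 : u ≠ 0)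
    (hy : y ∈ F C u) : 0 < dp u y := by
  obtain ⟨ε, hε, hn⟩ := hC.nhds
  have hM : 0 < ∑ i, |u i| + 1 := by
    have : 0 ≤ ∑ i, |u i| := sum_nonneg fun i _ => abs_nonneg _
    linarith
  set c : ℝ := ε / (∑ i, |u i| + 1) with hc
  have hc0 : 0 < c := div_pos hε hM
  have hz : c • u ∈ C := by
    refine hn _ ?_ fun i => ?_
    · simp only [Pi.smul_apply, smul_eq_mul, ← mul_sum, hu, mul_zero]
    · simp only [Pi.smul_apply, smul_eq_mul, abs_mul, abs_of_pos hc0]
      have h1 : |u i| ≤ ∑ i, |u i| + 1 := by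
        have : |u i| ≤ ∑ i, |u i| :=
          single_le_sum (f := fun i => |u i|) (fun i _ => abs_nonneg (u i)) (mem_univ i)
        linarith
      calc c * |u i| ≤ c * (∑ i, |u i| + 1) := by gcongr
        _ = ε := by rw [hc]; field_simp
  have h1 := hy.2 _ hz
  rw [dp_smul_right] at h1
  have h2 : 0 < dp u u := by
    obtain ⟨i, hi⟩ : ∃ i, u i ≠ 0 := by
      by_contra h; push Not at h; exact hu0 (funext h)
    unfold dp
    refine sum_pos' (fun i _ => mul_self_nonneg _) ⟨i, mem_univ i, ?_⟩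
    exact mul_self_pos.2 hi
  have := mul_pos hc0 h2
  linarith

theorem ne_zero_of_mem {C : Set (ι → ℝ)} (hC : Body C) {u y : ι → ℝ} (hu : ∑ i, u i = 0)
    (hu0 : u ≠ 0) (hy : y ∈ F C u) : y ≠ 0 := by
  rintro rfl
  have := dp_pos hC hu hu0 hy
  simp [dp] at this

/-- The general sign lemma. -/
theorem sign_lemma {C : Set (ι → ℝ)} (hC : Body C) {u y w : ι → ℝ} {T : Finset ι}
    (hT : Ch u T) (hy : y ∈ F C u) (hw : ∑ i, w i = 0) (hw1 : ∀ i ∈ T, 0 ≤ w i)
    (hw2 : ∀ i ∉ T, w i ≤ 0) :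
    0 ≤ dp w y ∧ (dp w y ≤ 0 → ∃ θ, (∀ i, w i ≠ 0 → y i = θ) ∧ (∀ i ∈ T, θ ≤ y i) ∧
      ∀ i ∉ T, y i ≤ θ) := by
  obtain ⟨i0, hi0, hmin⟩ := T.exists_min_image y hT.1
  have hle : ∀ j ∉ T, y j ≤ y i0 := fun j hj => swap_le hC hy (hT.2.2 i0 hi0 j hj)
  have heq : dp w y = ∑ i, w i * (y i - y i0) := by
    unfold dp
    simp only [mul_sub, sum_sub_distrib, ← sum_mul, hw, zero_mul, sub_zero]
  have hterm : ∀ i ∈ (univ : Finset ι), 0 ≤ w i * (y i - y i0) := by
    intro i _
    by_cases hi : i ∈ T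
    · exact mul_nonneg (hw1 i hi) (by linarith [hmin i hi])
    · exact mul_nonneg_of_nonpos_of_nonpos (hw2 i hi) (by linarith [hle i hi])
  refine ⟨by rw [heq]; exact sum_nonneg hterm, fun h => ⟨y i0, fun i hi => ?_, hmin, hle⟩⟩
  have h0 : ∑ i, w i * (y i - y i0) = 0 := le_antisymm (by rw [← heq]; exact h)
    (sum_nonneg hterm)
  have := (sum_eq_zero_iff_of_nonneg hterm).1 h0 i (mem_univ i)
  rcases mul_eq_zero.1 this with h' | h'
  · exact absurd h' hi
  · linarith

/-- Exact sign patterns work. -/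
theorem exact_lemma {C : Set (ι → ℝ)} (hC : Body C) {u y w : ι → ℝ} {T : Finset ι}
    (hu : ∑ i, u i = 0) (hu0 : u ≠ 0)
    (hT : Ch u T) (hy : y ∈ F C u) (hw : ∑ i, w i = 0) (hw1 : ∀ i ∈ T, 0 < w i)
    (hw2 : ∀ i ∉ T, w i < 0) : 0 < dp w y := by
  obtain ⟨h1, h2⟩ := sign_lemma hC hT hy hw (fun i hi => (hw1 i hi).le) (fun i hi => (hw2 i hi).le)
  by_contra hcon
  push Not at hcon
  obtain ⟨θ, hθ, -, -⟩ := h2 hcon
  have hall : ∀ i, y i = θ := by
    intro i
    refine hθ i ?_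
    by_cases hi : i ∈ T
    · exact (hw1 i hi).ne'
    · exact (hw2 i hi).ne
  have hs := hC.sum0 y hy.1
  simp only [hall, sum_const, card_univ, nsmul_eq_mul] at hs
  obtain ⟨i0, -⟩ := hT.1
  have hcard : (Fintype.card ι : ℝ) ≠ 0 := by
    have : 0 < Fintype.card ι := Fintype.card_pos_iff.2 ⟨i0⟩
    positivity
  have hθ0 : θ = 0 := (mul_eq_zero.1 hs).resolve_left hcard
  refine ne_zero_of_mem hC hu hu0 hy (funext fun i => ?_)
  rw [hall i, hθ0]; rfl

/-! ### The vectors `ê_i` -/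

/-- The projection of the `i`-th unit vector. -/
noncomputable def eh (i : ι) : ι → ℝ := fun j => (if j = i then 1 else 0) - 1 / (Fintype.card ι : ℝ)

theorem dp_eh {w : ι → ℝ} (hw : ∑ i, w i = 0) (i : ι) : dp w (eh i) = w i := by
  unfold dp eh
  simp only [mul_sub, sum_sub_distrib, mul_ite, mul_one, mul_zero, sum_ite_eq', mem_univ, if_true,
    ← sum_mul, hw, zero_mul, sub_zero]

theorem card_pos' (i : ι) : (0 : ℝ) < Fintype.card ι := by
  have : 0 < Fintype.card ι := Fintype.card_pos_iff.2 ⟨i⟩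
  exact_mod_cast this

theorem sum_eh (i : ι) : ∑ j, (eh i : ι → ℝ) j = 0 := by
  unfold eh
  have := (card_pos' i).ne'
  simp only [sum_sub_distrib, sum_ite_eq', mem_univ, if_true, sum_const, card_univ, nsmul_eq_mul]
  field_simp
  ring

theorem eh_self (i : ι) : (eh i : ι → ℝ) i = 1 - 1 / (Fintype.card ι : ℝ) := by simp [eh]

theorem eh_ne {i j : ι} (h : j ≠ i) : (eh i : ι → ℝ) j = - (1 / (Fintype.card ι : ℝ)) := by
  simp [eh, h]

/-- A vector which is constant off `i`. -/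
theorem const_off {y : ι → ℝ} (hy : ∑ i, y i = 0) {i : ι} {θ : ℝ} (h : ∀ j, j ≠ i → y j = θ) :
    y = (y i - θ) • (eh i : ι → ℝ) := by
  have hN := (card_pos' i).ne'
  have hs : y i + (Fintype.card ι - 1) * θ = 0 := by
    rw [← add_sum_erase univ y (mem_univ i)] at hy
    have : ∑ x ∈ univ.erase i, y x = (Fintype.card ι - 1) * θ := by
      rw [sum_congr rfl fun x hx => h x (ne_of_mem_erase hx), sum_const, card_erase_of_mem
        (mem_univ i), card_univ, nsmul_eq_mul, Nat.cast_sub (Fintype.card_pos_iff.2 ⟨i⟩)]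
      simp
    rw [this] at hy
    exact hy
  funext j
  simp only [Pi.smul_apply, smul_eq_mul]
  by_cases hj : j = i
  · subst hj
    rw [eh_self]
    field_simp
    linarith
  · rw [eh_ne hj, h j hj]
    field_simp
    linarith

/-- The parameters `t₊`, `t₋`. -/
structure Par (C : Set (ι → ℝ)) (tp tm : ℝ) : Prop where
  tp_pos : 0 < tp
  tm_pos : 0 < tm
  tp_mem : ∀ i, tp • (eh i : ι → ℝ) ∈ C
  tm_mem : ∀ i, (-tm) • (eh i : ι → ℝ) ∈ C
  tp_max : ∀ i s, s • (eh i : ι → ℝ) ∈ C → s ≤ tp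
  tm_max : ∀ i s, s • (eh i : ι → ℝ) ∈ C → -tm ≤ s

theorem eh_perm (i j : ι) : (fun k => (eh i : ι → ℝ) (Equiv.swap i j k)) = eh j := by
  funext k
  unfold eh
  congr 1
  by_cases hk : k = j
  · subst hk; simp
  · rw [if_neg hk, if_neg]
    intro h
    apply hk
    have := congrArg (Equiv.swap i j) h
    rw [Equiv.swap_apply_self, Equiv.swap_apply_left] at this
    exact this

theorem smul_eh_mem {C : Set (ι → ℝ)} (hC : Body C) {i : ι} {s : ℝ}
    (h : s • (eh i : ι → ℝ) ∈ C) (j : ι) : s • (eh j : ι → ℝ) ∈ C := by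
  have := hC.perm (Equiv.swap i j) _ h
  have e : (fun k => (s • (eh i : ι → ℝ)) (Equiv.swap i j k)) = s • (eh j : ι → ℝ) := by
    rw [← eh_perm i j]; rfl
  rw [e] at this
  exact this

theorem exists_par {C : Set (ι → ℝ)} (hC : Body C) (i : ι) (hcard : 2 ≤ Fintype.card ι) :
    ∃ tp tm, Par C tp tm := by
  obtain ⟨ε, hε, hn⟩ := hC.nhds
  have hN : (2 : ℝ) ≤ Fintype.card ι := by exact_mod_cast hcard
  have hbound : ∀ j k : ι, |(eh j : ι → ℝ) k| ≤ 1 := by
    intro j k
    have h1 : 0 < 1 / (Fintype.card ι : ℝ) := by positivity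
    have h2 : 1 / (Fintype.card ι : ℝ) ≤ 1 / 2 := by
      exact one_div_le_one_div_of_le (by norm_num) hN
    unfold eh
    split_ifs <;> rw [abs_le] <;> constructor <;> linarith
  have hmemε : ∀ s : ℝ, |s| ≤ ε → s • (eh i : ι → ℝ) ∈ C := by
    intro s hs
    refine hn _ ?_ fun j => ?_
    · simp only [Pi.smul_apply, smul_eq_mul, ← mul_sum, sum_eh, mul_zero]
    · simp only [Pi.smul_apply, smul_eq_mul, abs_mul]
      calc |s| * |(eh i : ι → ℝ) j| ≤ ε * 1 := by
            gcongr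
            exact hbound i j
        _ = ε := mul_one _
  set A : Set ℝ := {s | s • (eh i : ι → ℝ) ∈ C} with hA
  have hcl : IsClosed A := hC.cpt.isClosed.preimage (by fun_prop)
  have hbd : Bornology.IsBounded A := by
    obtain ⟨R, hR⟩ := hC.cpt.isBounded.exists_norm_le
    rw [isBounded_iff_forall_norm_le]
    refine ⟨2 * R, fun s hs => ?_⟩
    have h1 := hR _ hs
    have h2 : ‖(s • (eh i : ι → ℝ)) i‖ ≤ R := (norm_le_pi_norm _ i).trans h1
    simp only [Pi.smul_apply, smul_eq_mul, norm_mul, eh_self] at h2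
    have h3 : (1 : ℝ) / 2 ≤ ‖(1 : ℝ) - 1 / (Fintype.card ι : ℝ)‖ := by
      have h2 : 1 / (Fintype.card ι : ℝ) ≤ 1 / 2 := by
        exact one_div_le_one_div_of_le (by norm_num) hN
      rw [Real.norm_eq_abs]
      exact le_trans (by linarith) (le_abs_self _)
    have h4 : ‖s‖ * (1 / 2) ≤ ‖s‖ * ‖(1 : ℝ) - 1 / (Fintype.card ι : ℝ)‖ := by gcongr
    linarith
  have hcpt : IsCompact A := Metric.isCompact_of_isClosed_isBounded hcl hbd
  have hne : A.Nonempty := ⟨0, hmemε 0 (by simpa using hε.le)⟩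
  obtain ⟨tp, htp, hmax⟩ := hcpt.exists_isMaxOn hne continuous_id.continuousOn
  obtain ⟨tm', htm, hmin⟩ := hcpt.exists_isMinOn hne continuous_id.continuousOn
  have hback : ∀ j s, s • (eh j : ι → ℝ) ∈ C → s ∈ A := fun j s h => smul_eh_mem hC h i
  refine ⟨tp, -tm', ?_, ?_, fun j => smul_eh_mem hC htp j, fun j => ?_, fun j s h => ?_,
    fun j s h => ?_⟩
  · have : ε ≤ tp := hmax (show ε ∈ A from hmemε ε (abs_of_pos hε).le)
    linarith
  · have : tm' ≤ -ε := hmin (show -ε ∈ A from hmemε (-ε) (by rw [abs_neg, abs_of_pos hε]))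
    linarith
  · rw [neg_neg]; exact smul_eh_mem hC htm j
  · exact hmax (hback j s h)
  · rw [neg_neg]; exact hmin (hback j s h)

/-- Averaging over a set of coordinates. -/
theorem avg_mem {C : Set (ι → ℝ)} (hC : Body C) {y : ι → ℝ} (hy : y ∈ C) (S : Finset ι)
    (hS : S.Nonempty) : (fun i => if i ∈ S then (∑ j ∈ S, y j) / S.card else y i) ∈ C := by
  classical
  set G : Finset (Equiv.Perm ι) := univ.filter fun σ => ∀ i ∉ S, σ i = i with hG
  have hG1 : (1 : Equiv.Perm ι) ∈ G := by simp [hG]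
  have hGpos : 0 < G.card := card_pos.2 ⟨1, hG1⟩
  have hGposR : (0 : ℝ) < G.card := by exact_mod_cast hGpos
  set z : ι → ℝ := ∑ σ ∈ G, (G.card : ℝ)⁻¹ • (fun i => y (σ i)) with hz
  have hzC : z ∈ C := by
    refine hC.cvx.sum_mem (fun _ _ => by positivity) ?_ fun σ _ => hC.perm σ y hy
    rw [sum_const, nsmul_eq_mul, mul_inv_cancel₀ hGposR.ne']
  have hzi : ∀ i, z i = (G.card : ℝ)⁻¹ * ∑ σ ∈ G, y (σ i) := by
    intro i
    rw [hz, Finset.sum_apply]
    simp only [Pi.smul_apply, smul_eq_mul, mul_sum]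
  have hz_out : ∀ i ∉ S, z i = y i := by
    intro i hi
    rw [hzi]
    have : ∑ σ ∈ G, y (σ i) = G.card * y i := by
      rw [sum_congr rfl fun σ hσ => by rw [(mem_filter.1 hσ).2 i hi], sum_const, nsmul_eq_mul]
    rw [this, ← mul_assoc, inv_mul_cancel₀ hGposR.ne', one_mul]
  have hmaps : ∀ σ ∈ G, ∀ i, i ∈ S ↔ σ i ∈ S := by
    intro σ hσ i
    have h := (mem_filter.1 hσ).2
    constructor
    · intro hi
      by_contra hcon
      have h2 := h _ hcon
      have := σ.injective h2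
      rw [this] at hcon
      exact hcon hi
    · intro hi
      by_contra hcon
      rw [h i hcon] at hi
      exact hcon hi
  have hz_eq : ∀ i ∈ S, ∀ j ∈ S, z i = z j := by
    intro i hi j hj
    rw [hzi, hzi]
    congr 1
    refine sum_bij (fun σ _ => σ * Equiv.swap i j) ?_ ?_ ?_ ?_
    · intro σ hσ
      simp only [hG, mem_filter, mem_univ, true_and, Equiv.Perm.coe_mul, Function.comp_apply]
      intro k hk
      have hki : k ≠ i := by rintro rfl; exact hk hi
      have hkj : k ≠ j := by rintro rfl; exact hk hj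
      rw [Equiv.swap_apply_of_ne_of_ne hki hkj]
      exact (mem_filter.1 hσ).2 k hk
    · intro σ _ τ _ h
      exact mul_right_cancel h
    · intro σ hσ
      refine ⟨σ * Equiv.swap i j, ?_, ?_⟩
      · simp only [hG, mem_filter, mem_univ, true_and, Equiv.Perm.coe_mul, Function.comp_apply]
        intro k hk
        have hki : k ≠ i := by rintro rfl; exact hk hi
        have hkj : k ≠ j := by rintro rfl; exact hk hj
        rw [Equiv.swap_apply_of_ne_of_ne hki hkj]
        exact (mem_filter.1 hσ).2 k hk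
      · rw [mul_assoc, Equiv.swap_mul_self, mul_one]
    · intro σ _
      simp
  have hz_sum : ∑ i ∈ S, z i = ∑ i ∈ S, y i := by
    rw [sum_congr rfl fun i _ => hzi i, ← mul_sum, sum_comm]
    have : ∀ σ ∈ G, ∑ i ∈ S, y (σ i) = ∑ i ∈ S, y i := by
      intro σ hσ
      refine sum_bij (fun i _ => σ i) (fun i hi => (hmaps σ hσ i).1 hi)
        (fun i _ j _ h => σ.injective h) (fun j hj => ⟨σ⁻¹ j, ?_, ?_⟩) (fun _ _ => rfl)
      · rw [hmaps σ hσ]; simpa using hj
      · simp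
    rw [sum_congr rfl this, sum_const, nsmul_eq_mul, ← mul_assoc, inv_mul_cancel₀ hGposR.ne',
      one_mul]
  convert hzC using 1
  funext i
  split_ifs with hi
  · have hcard : (0 : ℝ) < S.card := by exact_mod_cast card_pos.2 hS
    have : ∑ j ∈ S, z j = S.card * z i := by
      rw [sum_congr rfl fun j hj => hz_eq j hj i hi, sum_const, nsmul_eq_mul]
    rw [← hz_sum, this, mul_div_cancel_left₀ _ hcard.ne']
  · exact (hz_out i hi).symm

end Pool.Agent.H153R2.Simplex
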