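import Pool.Agent.H153R2.Core

set_option autoImplicit false
set_option linter.unusedSectionVars false

open Finset Topology

namespace Pool.Agent.H153R2.Simplex

variable {ι : Type} [Fintype ι] [DecidableEq ι]

/-- `p_i` lies in the face of `u`. -/
def Pf (C : Set (ι → ℝ)) (tp : ℝ) (u : ι → ℝ) (i : ι) : Prop := tp • (eh i : ι → ℝ) ∈ F C u

/-- `q_i` lies in the face of `u`. -/
def Qf (C : Set (ι → ℝ)) (tm : ℝ) (u : ι → ℝ) (i : ι) : Prop := (-tm) • (eh i : ι → ℝ) ∈ F C u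

variable {C : Set (ι → ℝ)} {tp tm : ℝ}

theorem dp_smul_eh {u : ι → ℝ} (hu : ∑ i, u i = 0) (s : ℝ) (i : ι) :
    dp u (s • (eh i : ι → ℝ)) = s * u i := by
  rw [dp_smul_right, dp_eh hu]

theorem eh_face (hC : Body C) (hP : Par C tp tm) {u y : ι → ℝ} (hu : ∑ i, u i = 0) (hu0 : u ≠ 0)
    (hy : y ∈ F C u) {i : ι} {s : ℝ} (hys : y = s • (eh i : ι → ℝ)) :
    (0 < s ∧ Pf C tp u i) ∨ (s < 0 ∧ Qf C tm u i) := by
  have hpos := dp_pos hC hu hu0 hy
  have hmem := hy.1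
  rw [hys] at hmem
  rw [hys, dp_smul_eh hu] at hpos
  rcases lt_trichotomy s 0 with hs | hs | hs
  · right
    refine ⟨hs, ?_⟩
    have hui : u i < 0 := by
      by_contra hcon; push Not at hcon
      have : s * u i ≤ 0 := mul_nonpos_of_nonpos_of_nonneg hs.le hcon
      linarith
    have h1 := hy.2 _ (hP.tm_mem i)
    rw [hys, dp_smul_eh hu, dp_smul_eh hu] at h1
    have h2 := hP.tm_max i s hmem
    have h3 : s = -tm := by
      have : s ≤ -tm := by nlinarith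
      linarith
    unfold Qf
    rw [← h3, ← hys]; exact hy
  · subst hs; simp at hpos
  · left
    refine ⟨hs, ?_⟩
    have hui : 0 < u i := by
      by_contra hcon; push Not at hcon
      have : s * u i ≤ 0 := mul_nonpos_of_nonneg_of_nonpos hs.le hcon
      linarith
    have h1 := hy.2 _ (hP.tp_mem i)
    rw [hys, dp_smul_eh hu, dp_smul_eh hu] at h1
    have h2 := hP.tp_max i s hmem
    have h3 : s = tp := by
      have : tp ≤ s := by nlinarith
      linarith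
    unfold Pf
    rw [← h3, ← hys]; exact hy

theorem Pf_max (hP : Par C tp tm) {u : ι → ℝ} (hu : ∑ i, u i = 0) {i : ι} (h : Pf C tp u i)
    (j : ι) : u j ≤ u i := by
  have := h.2 _ (hP.tp_mem j)
  rw [dp_smul_eh hu, dp_smul_eh hu] at this
  exact le_of_mul_le_mul_left this hP.tp_pos

theorem Qf_min (hP : Par C tp tm) {u : ι → ℝ} (hu : ∑ i, u i = 0) {i : ι} (h : Qf C tm u i)
    (j : ι) : u i ≤ u j := by
  have := h.2 _ (hP.tm_mem j)
  rw [dp_smul_eh hu, dp_smul_eh hu] at this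
  have h2 : tm * u i ≤ tm * u j := by linarith
  exact le_of_mul_le_mul_left h2 hP.tm_pos

theorem Pf_pos (hC : Body C) (hP : Par C tp tm) {u : ι → ℝ} (hu : ∑ i, u i = 0) (hu0 : u ≠ 0)
    {i : ι} (h : Pf C tp u i) : 0 < u i := by
  have := dp_pos hC hu hu0 h
  rw [dp_smul_eh hu] at this
  exact (mul_pos_iff_of_pos_left hP.tp_pos).1 this

theorem Qf_neg (hC : Body C) (hP : Par C tp tm) {u : ι → ℝ} (hu : ∑ i, u i = 0) (hu0 : u ≠ 0)
    {i : ι} (h : Qf C tm u i) : u i < 0 := by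
  have := dp_pos hC hu hu0 h
  rw [dp_smul_eh hu] at this
  have h2 : 0 < tm * (- u i) := by linarith
  have := (mul_pos_iff_of_pos_left hP.tm_pos).1 h2
  linarith

/-- The top class. -/
noncomputable def top (u : ι → ℝ) : Finset ι := by
  classical exact univ.filter fun i => ∀ j, u j ≤ u i

/-- The complement of the bottom class. -/
noncomputable def nbot (u : ι → ℝ) : Finset ι := by
  classical exact univ.filter fun i => ∃ j, u j < u i

theorem mem_top {u : ι → ℝ} {i : ι} : i ∈ top u ↔ ∀ j, u j ≤ u i := by simp [top]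

theorem mem_nbot {u : ι → ℝ} {i : ι} : i ∈ nbot u ↔ ∃ j, u j < u i := by simp [nbot]

theorem notConst {u : ι → ℝ} (hu : ∑ i, u i = 0) (hu0 : u ≠ 0) : ∃ i j, u j < u i := by
  by_contra hcon
  push Not at hcon
  obtain ⟨i, hi⟩ : ∃ i, u i ≠ 0 := by
    by_contra h; push Not at h; exact hu0 (funext h)
  have hall : ∀ j, u j = u i := fun j => le_antisymm (hcon j i) (hcon i j)
  rw [sum_congr rfl fun j _ => hall j, sum_const, card_univ, nsmul_eq_mul] at hu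
  exact hi ((mul_eq_zero.1 hu).resolve_left (card_pos' i).ne')

theorem exists_top (u : ι → ℝ) (i : ι) : ∃ m, ∀ j, u j ≤ u m := by
  obtain ⟨m, -, hm⟩ := (univ : Finset ι).exists_max_image u ⟨i, mem_univ i⟩
  exact ⟨m, fun j => hm j (mem_univ j)⟩

theorem exists_bot (u : ι → ℝ) (i : ι) : ∃ m, ∀ j, u m ≤ u j := by
  obtain ⟨m, -, hm⟩ := (univ : Finset ι).exists_min_image u ⟨i, mem_univ i⟩
  exact ⟨m, fun j => hm j (mem_univ j)⟩

theorem Ch_top {u : ι → ℝ} (hu : ∑ i, u i = 0) (hu0 : u ≠ 0) : Ch u (top u) := by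
  obtain ⟨i, j, hij⟩ := notConst hu hu0
  obtain ⟨m, hm⟩ := exists_top u i
  refine ⟨⟨m, mem_top.2 hm⟩, ?_, ?_⟩
  · intro h
    have : j ∈ top u := by rw [h]; exact mem_univ j
    exact absurd (mem_top.1 this i) (not_le.2 hij)
  · intro a ha b hb
    rw [mem_top] at ha hb
    push Not at hb
    obtain ⟨c, hc⟩ := hb
    exact lt_of_lt_of_le hc (ha c)

theorem Ch_nbot {u : ι → ℝ} (hu : ∑ i, u i = 0) (hu0 : u ≠ 0) : Ch u (nbot u) := by
  obtain ⟨i, j, hij⟩ := notConst hu hu0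
  obtain ⟨m, hm⟩ := exists_bot u i
  refine ⟨⟨i, mem_nbot.2 ⟨j, hij⟩⟩, ?_, ?_⟩
  · intro h
    have : m ∈ nbot u := by rw [h]; exact mem_univ m
    obtain ⟨k, hk⟩ := mem_nbot.1 this
    exact absurd (hm k) (not_le.2 hk)
  · intro a ha b hb
    rw [mem_nbot] at ha hb
    push Not at hb
    obtain ⟨c, hc⟩ := ha
    exact lt_of_le_of_lt (hb c) hc

theorem top_subset_nbot {u : ι → ℝ} (hu : ∑ i, u i = 0) (hu0 : u ≠ 0) : top u ⊆ nbot u := by
  intro i hi
  rw [mem_top] at hi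
  rw [mem_nbot]
  obtain ⟨a, b, hab⟩ := notConst hu hu0
  exact ⟨b, lt_of_lt_of_le hab (hi a)⟩

/-- The first counting inequality. -/
theorem L1 (hC : Body C) (hP : Par C tp tm) {u : ι → ℝ} (hu : ∑ i, u i = 0) (hu0 : u ≠ 0)
    {i : ι} (h : Pf C tp u i) :
    tm * (top u).card ≤ tp * (Fintype.card ι - (top u).card) := by
  have hmax := Pf_max hP hu h
  have hpos := Pf_pos hC hP hu hu0 h
  have hval : ∀ j ∈ top u, u j = u i := fun j hj => le_antisymm (hmax j) (mem_top.1 hj i)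
  have hother : ∀ j ∈ univ \ top u, tm * (-u j) ≤ tp * u i := by
    intro j _
    have := h.2 _ (hP.tm_mem j)
    rw [dp_smul_eh hu, dp_smul_eh hu] at this
    linarith
  have hsum : ∑ j ∈ univ \ top u, (-u j) = (top u).card * u i := by
    have h1 := sum_sdiff (f := u) (subset_univ (top u))
    rw [hu, sum_congr rfl hval, sum_const, nsmul_eq_mul] at h1
    rw [sum_neg_distrib]
    linarith
  have h2 := sum_le_sum hother
  rw [← mul_sum, hsum, sum_const, nsmul_eq_mul, card_sdiff_of_subset (subset_univ _), card_univ,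
    Nat.cast_sub (card_le_univ _)] at h2
  have h3 : (tm * (top u).card) * u i ≤ (tp * (Fintype.card ι - (top u).card)) * u i := by
    linarith
  exact le_of_mul_le_mul_right h3 hpos

/-- The second counting inequality. -/
theorem L2 (hC : Body C) (hP : Par C tp tm) {u : ι → ℝ} (hu : ∑ i, u i = 0) (hu0 : u ≠ 0)
    {i : ι} (h : Qf C tm u i) :
    tp * (Fintype.card ι - (nbot u).card) ≤ tm * (nbot u).card := by
  have hmin := Qf_min hP hu h
  have hneg := Qf_neg hC hP hu hu0 h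
  have hval : ∀ j ∈ univ \ nbot u, u j = u i := by
    intro j hj
    have hj' : j ∉ nbot u := (mem_sdiff.1 hj).2
    rw [mem_nbot] at hj'
    push Not at hj'
    exact le_antisymm (hj' i) (hmin j)
  have hother : ∀ j ∈ nbot u, tp * u j ≤ tm * (-u i) := by
    intro j _
    have := h.2 _ (hP.tp_mem j)
    rw [dp_smul_eh hu, dp_smul_eh hu] at this
    linarith
  have hsum : ∑ j ∈ nbot u, u j = (Fintype.card ι - (nbot u).card) * (-u i) := by
    have h1 := sum_sdiff (f := u) (subset_univ (nbot u))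
    rw [hu, sum_congr rfl hval, sum_const, nsmul_eq_mul, card_sdiff_of_subset (subset_univ _),
      card_univ, Nat.cast_sub (card_le_univ _)] at h1
    linarith
  have h2 := sum_le_sum hother
  rw [← mul_sum, hsum, sum_const, nsmul_eq_mul] at h2
  have h3 : (tp * (Fintype.card ι - (nbot u).card)) * (-u i) ≤
      (tm * (nbot u).card) * (-u i) := by linarith
  exact le_of_mul_le_mul_right h3 (by linarith)

/-! ### Compactness -/

theorem isOpen_S (hC : IsCompact C) :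
    IsOpen {q : (ι → ℝ) × (ι → ℝ) × ℝ | ∀ y ∈ F C q.1, q.2.2 < dp q.2.1 y} := by
  have : CompactSpace C := isCompact_iff_compactSpace.1 hC
  set G : Set (((ι → ℝ) × (ι → ℝ) × ℝ) × C) :=
    {p | (∀ z ∈ C, dp p.1.1 z ≤ dp p.1.1 (p.2 : ι → ℝ)) ∧ dp p.1.2.1 (p.2 : ι → ℝ) ≤ p.1.2.2}
    with hG
  have hGcl : IsClosed G := by
    have e : G = (⋂ z ∈ C, {p : ((ι → ℝ) × (ι → ℝ) × ℝ) × C |
        dp p.1.1 z ≤ dp p.1.1 (p.2 : ι → ℝ)}) ∩
        {p | dp p.1.2.1 (p.2 : ι → ℝ) ≤ p.1.2.2} := by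
      ext p; simp [hG]
    rw [e]
    refine IsClosed.inter (isClosed_biInter fun z _ => ?_) ?_
    · exact isClosed_le (continuous_dp (by fun_prop) (by fun_prop))
        (continuous_dp (by fun_prop) (by fun_prop))
    · exact isClosed_le (continuous_dp (by fun_prop) (by fun_prop)) (by fun_prop)
  have himg := isClosedMap_fst_of_compactSpace (X := (ι → ℝ) × (ι → ℝ) × ℝ) (Y := C) G hGcl
  have e2 : {q : (ι → ℝ) × (ι → ℝ) × ℝ | ∀ y ∈ F C q.1, q.2.2 < dp q.2.1 y} =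
      (Prod.fst '' G)ᶜ := by
    ext q
    simp only [Set.mem_ofPred_eq, Set.mem_compl_iff, Set.mem_image, not_exists, not_and]
    constructor
    · rintro h ⟨q', y⟩ hp rfl
      exact absurd (h y ⟨y.2, hp.1⟩) (not_lt.2 hp.2)
    · intro h y hy
      by_contra hcon
      exact h (q, ⟨y, hy.1⟩) ⟨hy.2, not_lt.1 hcon⟩ rfl
  rw [e2]
  exact himg.isOpen_compl

theorem isOpen_Ch (T : Finset ι) : IsOpen {u : ι → ℝ | Ch u T} := by
  by_cases hT : T.Nonempty ∧ T ≠ univ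
  · have e : {u : ι → ℝ | Ch u T} = ⋂ i ∈ T, ⋂ j ∈ (univ \ T), {u | u j < u i} := by
      ext u
      simp only [Ch, hT.1, true_and, Set.mem_ofPred_eq, Set.mem_iInter, mem_sdiff, mem_univ]
      exact ⟨fun h i hi j hj => h.2 i hi j hj, fun h => ⟨hT.2, fun i hi j hj => h i hi j hj⟩⟩
    rw [e]
    refine isOpen_biInter_finset fun i _ => isOpen_biInter_finset fun j _ => ?_
    exact isOpen_lt (continuous_apply j) (continuous_apply i)
  · have e : {u : ι → ℝ | Ch u T} = ∅ := by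
      ext u
      simp only [Set.mem_ofPred_eq, Set.mem_empty_iff_false, iff_false]
      exact fun h => hT ⟨h.1, h.2.1⟩
    rw [e]; exact isOpen_empty

/-- The unit sphere of the hyperplane. -/
def Sph : Set (ι → ℝ) := {u | ∑ i, u i = 0 ∧ ∑ i, u i ^ 2 = 1}

theorem isCompact_Sph : IsCompact (Sph : Set (ι → ℝ)) := by
  refine Metric.isCompact_of_isClosed_isBounded ?_ ?_
  · refine IsClosed.inter ?_ ?_
    · exact isClosed_eq (by fun_prop) continuous_const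
    · exact isClosed_eq (by fun_prop) continuous_const
  · rw [isBounded_iff_forall_norm_le]
    refine ⟨1, fun u hu => ?_⟩
    rw [pi_norm_le_iff_of_nonneg zero_le_one]
    intro i
    have h1 : u i ^ 2 ≤ 1 := by
      rw [← hu.2]
      exact single_le_sum (f := fun i => u i ^ 2) (fun i _ => sq_nonneg (u i)) (mem_univ i)
    rw [Real.norm_eq_abs]
    exact abs_le_one_iff_mul_self_le_one.2 (by nlinarith)

theorem F_smul {u : ι → ℝ} {c : ℝ} (hc : 0 < c) : F C (c • u) = F C u := by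
  ext y
  simp only [F, Set.mem_ofPred_eq, dp_smul_left]
  refine and_congr_right fun _ => ⟨fun h z hz => ?_, fun h z hz => ?_⟩
  · exact le_of_mul_le_mul_left (h z hz) hc
  · exact mul_le_mul_of_nonneg_left (h z hz) hc.le

theorem exists_scale {u : ι → ℝ} (hu : ∑ i, u i = 0) (hu0 : u ≠ 0) :
    ∃ c : ℝ, 0 < c ∧ c • u ∈ (Sph : Set (ι → ℝ)) := by
  have h2 : 0 < ∑ i, u i ^ 2 := by
    obtain ⟨i, hi⟩ : ∃ i, u i ≠ 0 := by
      by_contra h; push Not at h; exact hu0 (funext h)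
    refine sum_pos' (fun i _ => sq_nonneg _) ⟨i, mem_univ i, ?_⟩
    positivity
  refine ⟨(Real.sqrt (∑ i, u i ^ 2))⁻¹, by positivity, ?_, ?_⟩
  · simp only [Pi.smul_apply, smul_eq_mul, ← mul_sum, hu, mul_zero]
  · simp only [Pi.smul_apply, smul_eq_mul, mul_pow, ← mul_sum, inv_pow, Real.sq_sqrt h2.le]
    exact inv_mul_cancel₀ h2.ne'

theorem Sph_ne_zero {u : ι → ℝ} (hu : u ∈ (Sph : Set (ι → ℝ))) : u ≠ 0 := by
  rintro rfl
  have := hu.2
  simp at this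

/-- The compactness lemma. -/
theorem compactness (hC : Body C) (L : Finset ((ι → ℝ) × (ι → ℝ)))
    (h : ∀ u : ι → ℝ, ∑ i, u i = 0 → u ≠ 0 →
      (∃ p ∈ L, ∀ y ∈ F C u, 0 < dp p.1 y) ∨
      (∃ p ∈ L, ∃ T, Ch u T ∧ ∀ δ : ℝ, 0 < δ → δ < 1 → ∑ i, (p.1 + δ • p.2) i = 0 ∧
        (∀ i ∈ T, 0 < (p.1 + δ • p.2) i) ∧ (∀ i ∉ T, (p.1 + δ • p.2) i < 0))) :
    ∃ W : Finset (ι → ℝ), W.card ≤ L.card ∧ ∃ η : ℝ, 0 < η ∧
      ∀ u : ι → ℝ, ∑ i, u i = 0 → u ≠ 0 → ∃ w ∈ W, ∀ y ∈ F C u, η < dp w y := by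
  classical
  -- first step: a uniform `δ`
  have step1 : ∃ δ0 : ℝ, 0 < δ0 ∧ ∀ u ∈ (Sph : Set (ι → ℝ)), ∀ δ, 0 < δ → δ < δ0 →
      ∃ p ∈ L, ∀ y ∈ F C u, 0 < dp (p.1 + δ • p.2) y := by
    refine isCompact_Sph.induction_on (p := fun s => ∃ δ0 : ℝ, 0 < δ0 ∧ ∀ u ∈ s, u ∈ (Sph : Set (ι → ℝ)) →
      ∀ δ, 0 < δ → δ < δ0 → ∃ p ∈ L, ∀ y ∈ F C u, 0 < dp (p.1 + δ • p.2) y) ?_ ?_ ?_ ?_ |>.imp
      fun δ0 h => ⟨h.1, fun u hu => h.2 u hu hu⟩
    · exact ⟨1, one_pos, fun u hu => absurd hu (Set.notMem_empty u)⟩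
    · rintro s t hst ⟨δ0, h0, h1⟩
      exact ⟨δ0, h0, fun u hu => h1 u (hst hu)⟩
    · rintro s t ⟨δ0, h0, h1⟩ ⟨δ1, h2, h3⟩
      refine ⟨min δ0 δ1, lt_min h0 h2, ?_⟩
      rintro u (hu | hu) huS δ hδ hδ'
      · exact h1 u hu huS δ hδ (lt_of_lt_of_le hδ' (min_le_left _ _))
      · exact h3 u hu huS δ hδ (lt_of_lt_of_le hδ' (min_le_right _ _))
    · intro u hu
      rcases h u hu.1 (Sph_ne_zero hu) with ⟨p, hp, hS⟩ | ⟨p, hp, T, hT, hE⟩
      · -- robust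
        have hopen := isOpen_S (C := C) hC.cpt
        have hcont : Continuous fun r : (ι → ℝ) × ℝ =>
            ((r.1, p.1 + r.2 • p.2, (0 : ℝ)) : (ι → ℝ) × (ι → ℝ) × ℝ) := by fun_prop
        have hpre := hopen.preimage hcont
        have hmem : (u, (0 : ℝ)) ∈ (fun r : (ι → ℝ) × ℝ =>
            ((r.1, p.1 + r.2 • p.2, (0 : ℝ)) : (ι → ℝ) × (ι → ℝ) × ℝ)) ⁻¹'
            {q : (ι → ℝ) × (ι → ℝ) × ℝ | ∀ y ∈ F C q.1, q.2.2 < dp q.2.1 y} := by
          intro y hy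
          simpa using hS y hy
        have hnh := hpre.mem_nhds hmem
        rw [nhds_prod_eq, Filter.mem_prod_iff] at hnh
        obtain ⟨U, hU, V, hV, hUV⟩ := hnh
        obtain ⟨δ0, hδ0, hball⟩ := Metric.mem_nhds_iff.1 hV
        refine ⟨U, mem_nhdsWithin_of_mem_nhds hU, δ0, hδ0, fun u' hu' _ δ hδ hδ' => ⟨p, hp, ?_⟩⟩
        have : (u', δ) ∈ U ×ˢ V := ⟨hu', hball (by simp [abs_of_pos hδ, hδ'])⟩
        have := hUV this
        intro y hy
        simpa using this y hy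
      · -- exact
        refine ⟨{u | Ch u T}, mem_nhdsWithin_of_mem_nhds ((isOpen_Ch T).mem_nhds hT), 1, one_pos,
          fun u' hu' huS δ hδ hδ' => ⟨p, hp, fun y hy => ?_⟩⟩
        obtain ⟨e1, e2, e3⟩ := hE δ hδ hδ'
        exact exact_lemma hC huS.1 (Sph_ne_zero huS) hu' hy e1 e2 e3
  obtain ⟨δ0, hδ0, h1⟩ := step1
  set W : Finset (ι → ℝ) := L.image fun p => p.1 + (δ0 / 2) • p.2 with hW
  refine ⟨W, card_image_le, ?_⟩
  have hW1 : ∀ u ∈ (Sph : Set (ι → ℝ)), ∃ w ∈ W, ∀ y ∈ F C u, 0 < dp w y := by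
    intro u hu
    obtain ⟨p, hp, hy⟩ := h1 u hu (δ0 / 2) (by linarith) (by linarith)
    exact ⟨_, mem_image_of_mem _ hp, hy⟩
  -- second step: a uniform `η`
  have step2 : ∃ η : ℝ, 0 < η ∧ ∀ u ∈ (Sph : Set (ι → ℝ)), ∃ w ∈ W, ∀ y ∈ F C u, η < dp w y := by
    refine isCompact_Sph.induction_on (p := fun s => ∃ η : ℝ, 0 < η ∧ ∀ u ∈ s,
      u ∈ (Sph : Set (ι → ℝ)) → ∃ w ∈ W, ∀ y ∈ F C u, η < dp w y) ?_ ?_ ?_ ?_ |>.imp
      fun δ0 h => ⟨h.1, fun u hu => h.2 u hu hu⟩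
    · exact ⟨1, one_pos, fun u hu => absurd hu (Set.notMem_empty u)⟩
    · rintro s t hst ⟨δ0, h0, h1⟩
      exact ⟨δ0, h0, fun u hu => h1 u (hst hu)⟩
    · rintro s t ⟨δ0, h0, h1⟩ ⟨δ1, h2, h3⟩
      refine ⟨min δ0 δ1, lt_min h0 h2, ?_⟩
      rintro u (hu | hu) huS
      · obtain ⟨w, hw, hy⟩ := h1 u hu huS
        exact ⟨w, hw, fun y hyF => lt_of_le_of_lt (min_le_left _ _) (hy y hyF)⟩
      · obtain ⟨w, hw, hy⟩ := h3 u hu huS
        exact ⟨w, hw, fun y hyF => lt_of_le_of_lt (min_le_right _ _) (hy y hyF)⟩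
    · intro u hu
      obtain ⟨w, hw, hS⟩ := hW1 u hu
      have hopen := isOpen_S (C := C) hC.cpt
      have hcont : Continuous fun r : (ι → ℝ) × ℝ =>
          ((r.1, w, r.2) : (ι → ℝ) × (ι → ℝ) × ℝ) := by fun_prop
      have hpre := hopen.preimage hcont
      have hmem : (u, (0 : ℝ)) ∈ (fun r : (ι → ℝ) × ℝ =>
          ((r.1, w, r.2) : (ι → ℝ) × (ι → ℝ) × ℝ)) ⁻¹'
          {q : (ι → ℝ) × (ι → ℝ) × ℝ | ∀ y ∈ F C q.1, q.2.2 < dp q.2.1 y} := fun y hy => hS y hy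
      have hnh := hpre.mem_nhds hmem
      rw [nhds_prod_eq, Filter.mem_prod_iff] at hnh
      obtain ⟨U, hU, V, hV, hUV⟩ := hnh
      obtain ⟨δ1, hδ1, hball⟩ := Metric.mem_nhds_iff.1 hV
      refine ⟨U, mem_nhdsWithin_of_mem_nhds hU, δ1 / 2, by linarith, fun u' hu' _ => ⟨w, hw, ?_⟩⟩
      have : (u', δ1 / 2) ∈ U ×ˢ V :=
        ⟨hu', hball (by simp [abs_of_pos hδ1]; linarith)⟩
      exact fun y hy => hUV this y hy
  obtain ⟨η, hη, h2⟩ := step2
  refine ⟨η, hη, fun u hu hu0 => ?_⟩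
  obtain ⟨c, hc, hcS⟩ := exists_scale hu hu0
  obtain ⟨w, hw, hy⟩ := h2 _ hcS
  rw [F_smul hc] at hy
  exact ⟨w, hw, hy⟩

end Pool.Agent.H153R2.Simplex
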