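import Pool.Agent.H153R2.Faces

set_option autoImplicit false
set_option linter.unusedSectionVars false

open Finset Topology

namespace Pool.Agent.H153R2.Simplex

variable {ι : Type} [Fintype ι] [DecidableEq ι]

variable {C : Set (ι → ℝ)} {tp tm : ℝ}

/-- The base vector of a set `T0` not containing `l`. -/
def A (l : ι) (T0 : Finset ι) : ι → ℝ := fun i =>
  (if i ∈ T0 then (Fintype.card ι : ℝ) - 1 else 0) - T0.card + (if i = l then (T0.card : ℝ) else 0)

/-- The upward perturbation. -/
def BU (l : ι) : ι → ℝ := fun i => (if i = l then (Fintype.card ι : ℝ) else 0) - 1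

/-- The pair vector. -/
def P (a b : ι) : ι → ℝ := fun i =>
  (if i = a then (Fintype.card ι : ℝ) - 1 else 0) + (if i = b then 1 else 0) - 1

theorem sum_A (l : ι) (T0 : Finset ι) : ∑ i, A l T0 i = 0 := by
  unfold A
  simp only [sum_add_distrib, sum_sub_distrib, sum_ite_mem, univ_inter, sum_const, nsmul_eq_mul,
    card_univ, sum_ite_eq', mem_univ, if_true]
  ring

theorem sum_BU (l : ι) : ∑ i, BU l i = 0 := by
  unfold BU
  simp only [sum_sub_distrib, sum_const, nsmul_eq_mul, card_univ, sum_ite_eq', mem_univ, if_true]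
  ring

theorem sum_P (a b : ι) : ∑ i, P a b i = 0 := by
  unfold P
  simp only [sum_add_distrib, sum_sub_distrib, sum_const, nsmul_eq_mul, card_univ, sum_ite_eq',
    mem_univ, if_true]
  ring

theorem card_le_of_notMem {l : ι} {T0 : Finset ι} (h : l ∉ T0) :
    (T0.card : ℝ) ≤ Fintype.card ι - 1 := by
  have h1 : T0 ⊆ univ.erase l := fun i hi => mem_erase.2 ⟨by rintro rfl; exact h hi, mem_univ i⟩
  have h2 := card_le_card h1
  rw [card_erase_of_mem (mem_univ l), card_univ] at h2
  have h3 : 0 < Fintype.card ι := Fintype.card_pos_iff.2 ⟨l⟩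
  have : T0.card + 1 ≤ Fintype.card ι := by omega
  have : ((T0.card : ℝ) + 1) ≤ Fintype.card ι := by exact_mod_cast this
  linarith

theorem card_lt_of_ne {l : ι} {T0 : Finset ι} (h : l ∉ T0) (hne : T0 ≠ univ.erase l) :
    (T0.card : ℝ) + 1 ≤ Fintype.card ι - 1 := by
  have h1 : T0 ⊂ univ.erase l := by
    refine (Finset.ssubset_iff_subset_ne).2 ⟨fun i hi => mem_erase.2 ⟨by rintro rfl; exact h hi,
      mem_univ i⟩, hne⟩
  have h2 := card_lt_card h1
  rw [card_erase_of_mem (mem_univ l), card_univ] at h2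
  have h3 : 0 < Fintype.card ι := Fintype.card_pos_iff.2 ⟨l⟩
  have : T0.card + 1 + 1 ≤ Fintype.card ι := by omega
  have : ((T0.card : ℝ) + 1 + 1) ≤ Fintype.card ι := by exact_mod_cast this
  linarith

theorem A_l {l : ι} {T0 : Finset ι} (h : l ∉ T0) : A l T0 l = 0 := by simp [A, h]

theorem A_mem {l : ι} {T0 : Finset ι} (h : l ∉ T0) {i : ι} (hi : i ∈ T0) :
    A l T0 i = Fintype.card ι - 1 - T0.card := by
  have : i ≠ l := by rintro rfl; exact h hi
  simp [A, hi, this]

theorem A_notMem {l : ι} {T0 : Finset ι} {i : ι} (hi : i ∉ T0) (hil : i ≠ l) :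
    A l T0 i = -T0.card := by
  simp [A, hi, hil]

theorem BU_l (l : ι) : BU l l = Fintype.card ι - 1 := by simp [BU]

theorem BU_ne {l i : ι} (h : i ≠ l) : BU l i = -1 := by simp [BU, h]

/-- Robustness of `A`. -/
theorem robust_A (hC : Body C) (hP : Par C tp tm) {u : ι → ℝ} (hu : ∑ i, u i = 0) (hu0 : u ≠ 0)
    {l : ι} {T : Finset ι} (hT : Ch u T) (hne : (T.erase l).Nonempty)
    (hne' : T.erase l ≠ univ.erase l) (hp : ¬ Pf C tp u l) (hq : ¬ Qf C tm u l) :
    ∀ y ∈ F C u, 0 < dp (A l (T.erase l)) y := by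
  intro y hy
  have hl : l ∉ T.erase l := notMem_erase l T
  have hk1 : (0 : ℝ) < (T.erase l).card := by exact_mod_cast card_pos.2 hne
  have hk2 := card_lt_of_ne hl hne'
  obtain ⟨-, h2⟩ := sign_lemma hC hT hy (sum_A l _) (w := A l (T.erase l)) (fun i hi => by
    by_cases hil : i = l
    · subst hil; rw [A_l hl]
    · rw [A_mem hl (mem_erase.2 ⟨hil, hi⟩)]; linarith) (fun i hi => by
    by_cases hil : i = l
    · subst hil; rw [A_l hl]
    · rw [A_notMem (fun h => hi (mem_of_mem_erase h)) hil]; linarith)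
  by_contra hcon
  push Not at hcon
  obtain ⟨θ, hθ, -, -⟩ := h2 hcon
  have hoff : ∀ j, j ≠ l → y j = θ := by
    intro j hj
    refine hθ j ?_
    by_cases hjT : j ∈ T.erase l
    · rw [A_mem hl hjT]; linarith
    · rw [A_notMem hjT hj]; linarith
  rcases eh_face hC hP hu hu0 hy (const_off (hC.sum0 y hy.1) hoff) with h | h
  · exact hp h.2
  · exact hq h.2

/-- Exactness of the upward perturbation. -/
theorem exact_U {l : ι} {T0 : Finset ι} (hl : l ∉ T0) (hne : T0 ≠ univ.erase l) {δ : ℝ}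
    (h0 : 0 < δ) (h1 : δ < 1) : ∑ i, (A l T0 + δ • BU l) i = 0 ∧
      (∀ i ∈ insert l T0, 0 < (A l T0 + δ • BU l) i) ∧
      (∀ i ∉ insert l T0, (A l T0 + δ • BU l) i < 0) := by
  have hk := card_lt_of_ne hl hne
  have hk0 : (0 : ℝ) ≤ T0.card := by positivity
  refine ⟨?_, fun i hi => ?_, fun i hi => ?_⟩
  · simp only [Pi.add_apply, Pi.smul_apply, smul_eq_mul, sum_add_distrib, ← mul_sum, sum_A, sum_BU,
      mul_zero, add_zero]
  · simp only [Pi.add_apply, Pi.smul_apply, smul_eq_mul]
    rcases mem_insert.1 hi with rfl | h'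
    · rw [A_l hl, BU_l]
      have : 0 < δ * ((Fintype.card ι : ℝ) - 1) := mul_pos h0 (by linarith)
      linarith
    · have hil : i ≠ l := by rintro rfl; exact hl h'
      rw [A_mem hl h', BU_ne hil]; linarith
  · simp only [Pi.add_apply, Pi.smul_apply, smul_eq_mul]
    have hil : i ≠ l := by rintro rfl; exact hi (mem_insert_self _ _)
    have hiT : i ∉ T0 := fun h => hi (mem_insert_of_mem h)
    rw [A_notMem hiT hil, BU_ne hil]; linarith

/-- Exactness of the downward perturbation. -/
theorem exact_D {l : ι} {T0 : Finset ι} (hl : l ∉ T0) (hne : T0.Nonempty) {δ : ℝ}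
    (h0 : 0 < δ) (h1 : δ < 1) : ∑ i, (A l T0 + δ • (-BU l)) i = 0 ∧
      (∀ i ∈ T0, 0 < (A l T0 + δ • (-BU l)) i) ∧
      (∀ i ∉ T0, (A l T0 + δ • (-BU l)) i < 0) := by
  have hk := card_le_of_notMem hl
  have hk0 : (1 : ℝ) ≤ T0.card := by exact_mod_cast card_pos.2 hne
  refine ⟨?_, fun i hi => ?_, fun i hi => ?_⟩
  · simp only [Pi.add_apply, Pi.smul_apply, Pi.neg_apply, smul_eq_mul, sum_add_distrib, ← mul_sum,
      sum_A, sum_BU, mul_zero, add_zero, sum_neg_distrib, neg_zero]
  · simp only [Pi.add_apply, Pi.smul_apply, smul_eq_mul, Pi.neg_apply]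
    have hil : i ≠ l := by rintro rfl; exact hl hi
    rw [A_mem hl hi, BU_ne hil]; linarith
  · simp only [Pi.add_apply, Pi.smul_apply, smul_eq_mul, Pi.neg_apply]
    by_cases hil : i = l
    · subst hil
      rw [A_l hl, BU_l]
      have : 0 < δ * ((Fintype.card ι : ℝ) - 1) := mul_pos h0 (by linarith)
      linarith
    · rw [A_notMem hi hil, BU_ne hil]; linarith

theorem P_a {a b : ι} (hab : a ≠ b) : P a b a = Fintype.card ι - 2 := by
  simp [P, hab]; ring

theorem P_b {a b : ι} (hab : a ≠ b) : P a b b = 0 := by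
  simp [P, hab.symm]

theorem P_ne {a b i : ι} (ha : i ≠ a) (hb : i ≠ b) : P a b i = -1 := by
  simp [P, ha, hb]

/-- Robustness of the pair vector, lower element. -/
theorem robust_P1 (hC : Body C) (hP : Par C tp tm) {u : ι → ℝ} (hu : ∑ i, u i = 0) (hu0 : u ≠ 0)
    (hN : 3 ≤ Fintype.card ι) {a b : ι} (hab : a ≠ b) (hT : Ch u {a}) (hq : ¬ Qf C tm u b) :
    ∀ y ∈ F C u, 0 < dp (P a b) y := by
  intro y hy
  have hN' : (3 : ℝ) ≤ Fintype.card ι := by exact_mod_cast hN
  obtain ⟨-, h2⟩ := sign_lemma hC hT hy (sum_P a b) (w := P a b) (fun i hi => by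
    rw [mem_singleton] at hi; subst hi
    rw [P_a hab]; linarith) (fun i hi => by
    rw [mem_singleton] at hi
    by_cases hib : i = b
    · subst hib; rw [P_b hab]
    · rw [P_ne hi hib]; linarith)
  by_contra hcon
  push Not at hcon
  obtain ⟨θ, hθ, -, h3⟩ := h2 hcon
  have hoff : ∀ j, j ≠ b → y j = θ := by
    intro j hj
    refine hθ j ?_
    by_cases hja : j = a
    · subst hja; rw [P_a hab]; linarith
    · rw [P_ne hja hj]; norm_num
  have hyb : y b ≤ θ := h3 b (by simpa using hab.symm)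
  rcases eh_face hC hP hu hu0 hy (const_off (hC.sum0 y hy.1) hoff) with h | h
  · linarith [h.1]
  · exact hq h.2

/-- Robustness of the pair vector, upper element. -/
theorem robust_P2 (hC : Body C) (hP : Par C tp tm) {u : ι → ℝ} (hu : ∑ i, u i = 0) (hu0 : u ≠ 0)
    (hN : 3 ≤ Fintype.card ι) {a b : ι} (hab : a ≠ b) (hT : Ch u {a, b}) (hp : ¬ Pf C tp u b) :
    ∀ y ∈ F C u, 0 < dp (P a b) y := by
  intro y hy
  have hN' : (3 : ℝ) ≤ Fintype.card ι := by exact_mod_cast hN
  obtain ⟨-, h2⟩ := sign_lemma hC hT hy (sum_P a b) (w := P a b) (fun i hi => by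
    rw [mem_insert, mem_singleton] at hi
    rcases hi with rfl | rfl
    · rw [P_a hab]; linarith
    · rw [P_b hab]) (fun i hi => by
    rw [mem_insert, mem_singleton, not_or] at hi
    rw [P_ne hi.1 hi.2]; linarith)
  by_contra hcon
  push Not at hcon
  obtain ⟨θ, hθ, h3, -⟩ := h2 hcon
  have hoff : ∀ j, j ≠ b → y j = θ := by
    intro j hj
    refine hθ j ?_
    by_cases hja : j = a
    · subst hja; rw [P_a hab]; linarith
    · rw [P_ne hja hj]; norm_num
  have hyb : θ ≤ y b := h3 b (by simp)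
  rcases eh_face hC hP hu hu0 hy (const_off (hC.sum0 y hy.1) hoff) with h | h
  · exact hp h.2
  · linarith [h.1]

/-- The type of the perturbation at `T0`. -/
noncomputable def ty (tp tm : ℝ) (l : ι) (T0 : Finset ι) : ι → ℝ := by
  classical exact
    if tm * (T0.card + 1) ≤ tp * (Fintype.card ι - (T0.card + 1)) then BU l else -BU l

theorem tm_le (hC : Body C) (hP : Par C tp tm) (hN : 2 ≤ Fintype.card ι) (l : ι) :
    tm ≤ tp * (Fintype.card ι - 1) := by
  -- the average of the `q_i`, `i ≠ l`, is a positive multiple of `ê_l`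
  have hN' : (2 : ℝ) ≤ Fintype.card ι := by exact_mod_cast hN
  obtain ⟨m, hm⟩ : ∃ m : ι, m ≠ l := by
    by_contra hcon; push Not at hcon
    have : Fintype.card ι ≤ 1 := Fintype.card_le_one_iff.2 fun a b => by rw [hcon a, hcon b]
    omega
  have hne : (univ.erase l).Nonempty := ⟨m, mem_erase.2 ⟨hm, mem_univ m⟩⟩
  have h1 := avg_mem hC (hP.tm_mem m) (univ.erase l) hne
  have hsum : ∑ j ∈ univ.erase l, ((-tm) • (eh m : ι → ℝ)) j = - ((-tm) • (eh m : ι → ℝ)) l := by
    have h := add_sum_erase univ ((-tm) • (eh m : ι → ℝ)) (mem_univ l)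
    have h0 := hC.sum0 _ (hP.tm_mem m)
    linarith
  have hval : ((-tm) • (eh m : ι → ℝ)) l = tm / Fintype.card ι := by
    rw [Pi.smul_apply, smul_eq_mul, eh_ne hm.symm]; ring
  rw [hsum, hval] at h1
  have h2 := const_off (i := l) (hC.sum0 _ h1) (θ := (-(tm / Fintype.card ι)) /
    (univ.erase l).card) (fun j hj => by
      simp only [mem_erase, mem_univ, and_true]; rw [if_pos hj])
  rw [h2] at h1
  have h3 := hP.tp_max l _ h1
  simp only [mem_erase, ne_eq, not_true_eq_false, false_and, if_false] at h3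
  rw [hval, card_erase_of_mem (mem_univ l), card_univ, Nat.cast_sub (by omega)] at h3
  have hNpos : (0 : ℝ) < Fintype.card ι := by linarith
  have hN1 : (0 : ℝ) < Fintype.card ι - 1 := by linarith
  have h4 : tm / Fintype.card ι - -(tm / Fintype.card ι) / (Fintype.card ι - (1 : ℕ)) =
      tm / (Fintype.card ι - 1) := by
    push_cast
    field_simp
    ring
  rw [h4, div_le_iff₀ hN1] at h3
  exact h3

/-- The general bound: `2^(N-1)` directions suffice. -/
theorem base (hC : Body C) (hP : Par C tp tm) (hN : 2 ≤ Fintype.card ι) (l : ι) :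
    ∃ W : Finset (ι → ℝ), W.card ≤ 2 ^ (Fintype.card ι - 1) ∧ ∃ η : ℝ, 0 < η ∧
      ∀ u : ι → ℝ, ∑ i, u i = 0 → u ≠ 0 → ∃ w ∈ W, ∀ y ∈ F C u, η < dp w y := by
  classical
  suffices h : ∀ u : ι → ℝ, ∑ i, u i = 0 → u ≠ 0 →
      (∃ p ∈ ((univ.erase l).powerset).image fun T0 => (A l T0, ty tp tm l T0),
        ∀ y ∈ F C u, 0 < dp p.1 y) ∨
      (∃ p ∈ ((univ.erase l).powerset).image fun T0 => (A l T0, ty tp tm l T0), ∃ T, Ch u T ∧
        ∀ δ : ℝ, 0 < δ → δ < 1 → ∑ i, (p.1 + δ • p.2) i = 0 ∧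
        (∀ i ∈ T, 0 < (p.1 + δ • p.2) i) ∧ (∀ i ∉ T, (p.1 + δ • p.2) i < 0)) by
    obtain ⟨W, hW, hη⟩ := compactness hC _ h
    refine ⟨W, hW.trans (card_image_le.trans ?_), hη⟩
    rw [card_powerset, card_erase_of_mem (mem_univ l), card_univ]
  intro u hu hu0
  have hmemL : ∀ T0 : Finset ι, l ∉ T0 → (A l T0, ty tp tm l T0) ∈
      ((univ.erase l).powerset).image fun T0 => (A l T0, ty tp tm l T0) := by
    intro T0 h
    refine mem_image_of_mem _ (mem_powerset.2 fun i hi => mem_erase.2 ⟨?_, mem_univ i⟩)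
    rintro rfl; exact h hi
  have exU : ∀ T0 : Finset ι, l ∉ T0 → T0 ≠ univ.erase l → Ch u (insert l T0) →
      tm * (T0.card + 1) ≤ tp * (Fintype.card ι - (T0.card + 1)) →
      ∃ p ∈ ((univ.erase l).powerset).image fun T0 => (A l T0, ty tp tm l T0), ∃ T, Ch u T ∧
      ∀ δ : ℝ, 0 < δ → δ < 1 → ∑ i, (p.1 + δ • p.2) i = 0 ∧
        (∀ i ∈ T, 0 < (p.1 + δ • p.2) i) ∧ (∀ i ∉ T, (p.1 + δ • p.2) i < 0) := by
    intro T0 h1 h2 h3 h4
    refine ⟨_, hmemL T0 h1, insert l T0, h3, fun δ hδ hδ' => ?_⟩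
    simp only [ty, if_pos h4]
    exact exact_U h1 h2 hδ hδ'
  have exD : ∀ T0 : Finset ι, l ∉ T0 → Ch u T0 →
      ¬ (tm * (T0.card + 1) ≤ tp * (Fintype.card ι - (T0.card + 1))) →
      ∃ p ∈ ((univ.erase l).powerset).image fun T0 => (A l T0, ty tp tm l T0), ∃ T, Ch u T ∧
      ∀ δ : ℝ, 0 < δ → δ < 1 → ∑ i, (p.1 + δ • p.2) i = 0 ∧
        (∀ i ∈ T, 0 < (p.1 + δ • p.2) i) ∧ (∀ i ∉ T, (p.1 + δ • p.2) i < 0) := by
    intro T0 h1 h3 h4
    refine ⟨_, hmemL T0 h1, T0, h3, fun δ hδ hδ' => ?_⟩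
    simp only [ty, if_neg h4]
    exact exact_D h1 h3.1 hδ hδ'
  have hcardpos : (0 : ℝ) < Fintype.card ι := card_pos' l
  by_cases hp : Pf C tp u l
  · -- `T` is the top class
    right
    have hlt : l ∈ top u := mem_top.2 (Pf_max hP hu hp)
    have hT := Ch_top hu hu0
    have hins : insert l ((top u).erase l) = top u := insert_erase hlt
    refine exU ((top u).erase l) (notMem_erase _ _) ?_ (by rw [hins]; exact hT) ?_
    · intro h
      rw [h, insert_erase (mem_univ l)] at hins
      exact hT.2.1 hins.symm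
    · have hc : (((top u).erase l).card : ℝ) + 1 = (top u).card := by
        have := card_erase_add_one hlt
        exact_mod_cast this
      rw [hc]
      exact L1 hC hP hu hu0 hp
  by_cases hq : Qf C tm u l
  · right
    have hlt : l ∉ nbot u := by
      rw [mem_nbot]; push Not
      exact Qf_min hP hu hq
    refine exD (nbot u) hlt (Ch_nbot hu hu0) ?_
    have h2 := L2 hC hP hu hu0 hq
    have := hP.tp_pos
    have := hP.tm_pos
    intro h
    nlinarith
  · have hT := Ch_top hu hu0
    by_cases h0 : ((top u).erase l).Nonempty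
    · by_cases h1 : (top u).erase l = univ.erase l
      · -- the top class is the complement of `l`
        right
        have hlt : l ∉ top u := by
          intro hl
          apply hT.2.1
          rw [← insert_erase hl, h1, insert_erase (mem_univ l)]
        have he : top u = univ.erase l := by rw [← h1, erase_eq_of_notMem hlt]
        refine exD (top u) hlt hT ?_
        rw [he, card_erase_of_mem (mem_univ l), card_univ, Nat.cast_sub (by omega)]
        push_cast
        have := hP.tm_pos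
        have h3 : 0 < tm * ((Fintype.card ι : ℝ) - 1 + 1) := by
          have : (Fintype.card ι : ℝ) - 1 + 1 = Fintype.card ι := by ring
          rw [this]; positivity
        intro h
        have h4 : tp * ((Fintype.card ι : ℝ) - ((Fintype.card ι : ℝ) - 1 + 1)) = 0 := by ring
        linarith
      · left
        exact ⟨_, hmemL _ (notMem_erase _ _), robust_A hC hP hu hu0 hT h0 h1 hp hq⟩
    · right
      rw [not_nonempty_iff_eq_empty] at h0
      have hlt : top u = {l} := by
        obtain ⟨x, hx⟩ := hT.1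
        have hxl : x = l := by
          by_contra hne
          have : x ∈ (top u).erase l := mem_erase.2 ⟨hne, hx⟩
          rw [h0] at this
          exact absurd this (notMem_empty x)
        subst hxl
        rw [← insert_erase hx, h0, insert_empty_eq]
      refine exU ∅ (notMem_empty l) ?_ (by rw [insert_empty_eq, ← hlt]; exact hT) ?_
      · intro h
        have := congrArg Finset.card h
        rw [card_erase_of_mem (mem_univ l), card_univ, card_empty] at this
        omega
      · simp only [card_empty, Nat.cast_zero, zero_add, mul_one]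
        exact tm_le hC hP hN l

end Pool.Agent.H153R2.Simplex
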