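import Pool.Agent.H153R2.Alpha

set_option autoImplicit false
set_option linter.unusedSectionVars false

open Finset Topology

namespace Pool.Agent.H153R2.Simplex

variable {ι : Type} [Fintype ι] [DecidableEq ι]

variable {C : Set (ι → ℝ)} {tp tm : ℝ}

/-- The vector `τ`. -/
def tau (l a b : ι) (d : ℝ) : ι → ℝ := fun x =>
  (if x = l then ((Fintype.card ι : ℝ) - 3) * (1 - d) + 1 else 0) +
  (if x = a then ((Fintype.card ι : ℝ) - 3) * d + 1 else 0) + (if x = b then 1 else 0) - 1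

theorem sum_tau (l a b : ι) (d : ℝ) : ∑ i, tau l a b d i = 0 := by
  unfold tau
  simp only [sum_add_distrib, sum_sub_distrib, sum_const, nsmul_eq_mul, card_univ, sum_ite_eq',
    mem_univ, if_true]
  ring

theorem tau_l {l a b : ι} (hla : l ≠ a) (hlb : l ≠ b) (d : ℝ) :
    tau l a b d l = ((Fintype.card ι : ℝ) - 3) * (1 - d) := by
  simp [tau, hla, hlb]

theorem tau_a {l a b : ι} (hla : l ≠ a) (hab : a ≠ b) (d : ℝ) :
    tau l a b d a = ((Fintype.card ι : ℝ) - 3) * d := by
  simp [tau, hla.symm, hab]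

theorem tau_b {l a b : ι} (hlb : l ≠ b) (hab : a ≠ b) (d : ℝ) : tau l a b d b = 0 := by
  simp [tau, hlb.symm, hab.symm]

theorem tau_ne {l a b x : ι} (h1 : x ≠ l) (h2 : x ≠ a) (h3 : x ≠ b) (d : ℝ) :
    tau l a b d x = -1 := by
  simp [tau, h1, h2, h3]

theorem robust_tau (hC : Body C) (hP : Par C tp tm) {u : ι → ℝ} (hu : ∑ i, u i = 0) (hu0 : u ≠ 0)
    (hN : 4 ≤ Fintype.card ι) {l a b : ι} (hla : l ≠ a) (hlb : l ≠ b) (hab : a ≠ b)
    (hT : Ch u {a, b, l}) (hp : ¬ Pf C tp u b) {d : ℝ} (h0 : 0 < d) (h1 : d < 1) :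
    ∀ y ∈ F C u, 0 < dp (tau l a b d) y := by
  intro y hy
  have hN' : (4 : ℝ) ≤ Fintype.card ι := by exact_mod_cast hN
  have hl : 0 < tau l a b d l := by
    rw [tau_l hla hlb]; exact mul_pos (by linarith) (by linarith)
  have ha : 0 < tau l a b d a := by
    rw [tau_a hla hab]; exact mul_pos (by linarith) (by linarith)
  obtain ⟨-, h2⟩ := sign_lemma hC hT hy (sum_tau l a b d) (w := tau l a b d) (fun i hi => by
    simp only [mem_insert, mem_singleton] at hi
    rcases hi with rfl | rfl | rfl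
    · exact ha.le
    · rw [tau_b hlb hab]
    · exact hl.le) (fun i hi => by
    simp only [mem_insert, mem_singleton, not_or] at hi
    rw [tau_ne hi.2.2 hi.1 hi.2.1]; linarith)
  by_contra hcon
  push Not at hcon
  obtain ⟨θ, hθ, h3, -⟩ := h2 hcon
  have hoff : ∀ j, j ≠ b → y j = θ := by
    intro j hj
    refine hθ j ?_
    by_cases hja : j = a
    · subst hja; exact ha.ne'
    · by_cases hjl : j = l
      · subst hjl; exact hl.ne'
      · rw [tau_ne hjl hja hj]; norm_num
  have hyb : θ ≤ y b := h3 b (by simp)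
  rcases eh_face hC hP hu hu0 hy (const_off (hC.sum0 y hy.1) hoff) with h | h
  · exact hp h.2
  · linarith [h.1]

/-- The exact perturbation of `τ`. -/
theorem exact_tau {l a b : ι} (hla : l ≠ a) (hlb : l ≠ b) (hab : a ≠ b)
    (hN : 4 ≤ Fintype.card ι) {d : ℝ} (hd0 : 0 < d) (hd1 : d < 1) {δ : ℝ}
    (h0 : 0 < δ) (h1 : δ < 1) : ∑ i, (tau l a b d + δ • Bp b l) i = 0 ∧
      (∀ i ∈ ({a, l} : Finset ι), 0 < (tau l a b d + δ • Bp b l) i) ∧
      (∀ i ∉ ({a, l} : Finset ι), (tau l a b d + δ • Bp b l) i < 0) := by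
  have hN' : (4 : ℝ) ≤ Fintype.card ι := by exact_mod_cast hN
  refine ⟨?_, fun i hi => ?_, fun i hi => ?_⟩
  · simp only [Pi.add_apply, Pi.smul_apply, smul_eq_mul, sum_add_distrib, ← mul_sum, sum_tau,
      sum_Bp, mul_zero, add_zero]
  · simp only [Pi.add_apply, Pi.smul_apply, smul_eq_mul]
    rw [mem_insert, mem_singleton] at hi
    rcases hi with rfl | rfl
    · rw [tau_a hla hab]
      simp only [Bp, if_neg hla.symm, if_neg hab, sub_zero, mul_zero, add_zero]
      exact mul_pos (by linarith) hd0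
    · rw [tau_l hla hlb]
      simp only [Bp, if_neg hlb, if_true, sub_zero, mul_one]
      have : 0 < ((Fintype.card ι : ℝ) - 3) * (1 - d) := mul_pos (by linarith) (by linarith)
      linarith
  · simp only [Pi.add_apply, Pi.smul_apply, smul_eq_mul]
    rw [mem_insert, mem_singleton, not_or] at hi
    by_cases hb : i = b
    · subst hb
      rw [tau_b hlb hab]
      simp only [Bp, if_neg hi.2, if_true]
      linarith
    · rw [tau_ne hi.2 hi.1 hb]
      simp only [Bp, if_neg hi.2, if_neg hb]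
      linarith

/-- The family of case (γ). -/
noncomputable def tyγ (l : ι) (T0 : Finset ι) : ι → ℝ :=
  if T0 = univ.erase l then -BU l else BU l

/-- Condition (κ). -/
def Kappa (C : Set (ι → ℝ)) (tp : ℝ) (l a b : ι) : Prop :=
  ∀ y ∈ C, y l = tp * (1 - 1 / (Fintype.card ι : ℝ)) →
    ∃ j, j ≠ l ∧ j ≠ a ∧ j ≠ b ∧ y j < tp * (1 - 1 / (Fintype.card ι : ℝ))

theorem dp_tau0 {l a b : ι} (hla : l ≠ a) (hlb : l ≠ b) (hab : a ≠ b) (y : ι → ℝ) :
    dp (tau l a b 0) y = ∑ j ∈ univ \ {a, b, l}, (y l - y j) := by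
  unfold dp
  rw [← sum_sdiff (subset_univ ({a, b, l} : Finset ι))]
  have hbl : b ∉ ({l} : Finset ι) := by simpa using hlb.symm
  have habl : a ∉ ({b, l} : Finset ι) := by simp [hab, hla.symm]
  have h1 : ∑ j ∈ ({a, b, l} : Finset ι), tau l a b 0 j * y j =
      ((Fintype.card ι : ℝ) - 3) * y l := by
    rw [sum_insert habl, sum_insert hbl, sum_singleton, tau_a hla hab, tau_b hlb hab,
      tau_l hla hlb]
    ring
  have h2 : ∑ j ∈ univ \ ({a, b, l} : Finset ι), tau l a b 0 j * y j =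
      ∑ j ∈ univ \ ({a, b, l} : Finset ι), (-y j) := by
    refine sum_congr rfl fun j hj => ?_
    simp only [mem_sdiff, mem_univ, true_and, mem_insert, mem_singleton, not_or] at hj
    rw [tau_ne hj.2.2 hj.1 hj.2.1]; ring
  have h3 : ∑ j ∈ univ \ ({a, b, l} : Finset ι), (y l - y j) =
      ((Fintype.card ι : ℝ) - 3) * y l + ∑ j ∈ univ \ ({a, b, l} : Finset ι), (-y j) := by
    have hle : 3 ≤ Fintype.card ι := by
      have : ({a, b, l} : Finset ι).card = 3 := by
        rw [card_insert_of_notMem habl, card_insert_of_notMem hbl, card_singleton]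
      rw [← this]; exact card_le_univ _
    simp only [sub_eq_add_neg, sum_add_distrib, sum_const, nsmul_eq_mul]
    rw [card_sdiff_of_subset (subset_univ _), card_univ, card_insert_of_notMem habl,
      card_insert_of_notMem hbl, card_singleton, Nat.cast_sub (by omega)]
    push_cast
    ring
  rw [h1, h2, h3]
  ring

theorem exists_d (hC : Body C) (hP : Par C tp tm) (hN : 4 ≤ Fintype.card ι)
    {l a b : ι} (hla : l ≠ a) (hlb : l ≠ b) (hab : a ≠ b) (hκ : Kappa C tp l a b) :
    ∃ d : ℝ, 0 < d ∧ d < 1 ∧ ∀ y ∈ F C (eh l : ι → ℝ), 0 < dp (tau l a b d) y := by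
  have hopen := isOpen_S (C := C) hC.cpt
  have hcont : Continuous fun r : ℝ =>
      (((eh l : ι → ℝ), tau l a b r, (0 : ℝ)) : (ι → ℝ) × (ι → ℝ) × ℝ) := by
    refine continuous_const.prodMk (Continuous.prodMk ?_ continuous_const)
    refine continuous_pi fun x => ?_
    unfold tau
    split_ifs <;> fun_prop
  have hpre := hopen.preimage hcont
  have hmem : (0 : ℝ) ∈ (fun r : ℝ =>
      (((eh l : ι → ℝ), tau l a b r, (0 : ℝ)) : (ι → ℝ) × (ι → ℝ) × ℝ)) ⁻¹'
      {q : (ι → ℝ) × (ι → ℝ) × ℝ | ∀ y ∈ F C q.1, q.2.2 < dp q.2.1 y} := by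
    intro y hy
    change y ∈ F C (eh l : ι → ℝ) at hy
    change 0 < dp (tau l a b 0) y
    rw [dp_tau0 hla hlb hab]
    have h1 := hy.2 _ (hP.tp_mem l)
    rw [dp_eh_left (hC.sum0 y hy.1), dp_eh_left (hC.sum0 _ (hP.tp_mem l)), Pi.smul_apply,
      smul_eq_mul, eh_self] at h1
    have hyl : y l = tp * (1 - 1 / (Fintype.card ι : ℝ)) :=
      le_antisymm (coord_le hC hP (by omega) hy.1 l).1 h1
    obtain ⟨j, hj1, hj2, hj3, hj4⟩ := hκ y hy.1 hyl
    refine sum_pos' (fun i _ => ?_) ⟨j, by simp [hj1, hj2, hj3], by rw [hyl]; linarith⟩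
    rw [hyl]
    linarith [(coord_le hC hP (by omega) hy.1 i).1]
  obtain ⟨ε, hε, hball⟩ := Metric.mem_nhds_iff.1 (hpre.mem_nhds hmem)
  refine ⟨min (ε / 2) (1 / 2), by positivity, lt_of_le_of_lt (min_le_right _ _) (by norm_num),
    ?_⟩
  have hm : min (ε / 2) (1 / 2) ∈ Metric.ball (0 : ℝ) ε := by
    rw [Metric.mem_ball, dist_zero_right, Real.norm_eq_abs, abs_of_pos (by positivity)]
    exact lt_of_le_of_lt (min_le_left _ _) (by linarith)
  intro y hy
  exact hball hm y hy

theorem card_D {l a b : ι} (hla : l ≠ a) (hlb : l ≠ b) (hab : a ≠ b) :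
    ((univ.erase l).powerset \ {∅, {a}, {a, b}} : Finset (Finset ι)).card =
      2 ^ (Fintype.card ι - 1) - 3 := by
  have hsub : ({∅, {a}, {a, b}} : Finset (Finset ι)) ⊆ (univ.erase l).powerset := by
    intro T hT
    simp only [mem_insert, mem_singleton] at hT
    rw [mem_powerset]
    rcases hT with rfl | rfl | rfl
    · exact empty_subset _
    · intro x hx; rw [mem_singleton] at hx; subst hx; simp [hla.symm]
    · intro x hx
      simp only [mem_insert, mem_singleton] at hx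
      rcases hx with rfl | rfl
      · simp [hla.symm]
      · simp [hlb.symm]
  rw [card_sdiff_of_subset hsub, card_powerset, card_erase_of_mem (mem_univ l), card_univ]
  congr 1
  rw [card_insert_of_notMem, card_insert_of_notMem, card_singleton]
  · rw [mem_singleton]
    intro h
    have h1 := congrArg Finset.card h
    rw [card_singleton, card_pair hab] at h1
    omega
  · simp only [mem_insert, mem_singleton, not_or]
    refine ⟨(singleton_ne_empty a).symm, fun h => ?_⟩
    have h1 := congrArg Finset.card h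
    rw [card_empty, card_pair hab] at h1
    omega

/-- The list of directions in case (γ). -/
noncomputable def Lγ (l a b : ι) (d : ℝ) : Finset ((ι → ℝ) × (ι → ℝ)) :=
  insert (tau l a b d, Bp b l) (insert (P a b, 0)
    (((univ.erase l).powerset \ {∅, {a}, {a, b}}).image fun T0 => (A l T0, tyγ l T0)))

theorem card_Lγ {l a b : ι} (hla : l ≠ a) (hlb : l ≠ b) (hab : a ≠ b) (d : ℝ)
    (hN : 4 ≤ Fintype.card ι) : (Lγ l a b d).card ≤ 2 ^ (Fintype.card ι - 1) - 1 := by
  have h1 : 2 ^ 3 ≤ 2 ^ (Fintype.card ι - 1) := Nat.pow_le_pow_right (by norm_num) (by omega)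
  have h2 : (((univ.erase l).powerset \ {∅, {a}, {a, b}}).image
      fun T0 => (A l T0, tyγ l T0)).card ≤
      ((univ.erase l).powerset \ {∅, {a}, {a, b}} : Finset (Finset ι)).card := card_image_le
  have h3 := card_insert_le (tau l a b d, Bp b l)
    (insert (P a b, 0) (((univ.erase l).powerset \ {∅, {a}, {a, b}}).image
      fun T0 => (A l T0, tyγ l T0)))
  have h4 := card_insert_le (P a b, (0 : ι → ℝ))
    (((univ.erase l).powerset \ {∅, {a}, {a, b}}).image fun T0 => (A l T0, tyγ l T0))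
  rw [card_D hla hlb hab] at h2
  unfold Lγ
  omega

theorem mem_Lγ {l a b : ι} {d : ℝ} {T0 : Finset ι} (h : l ∉ T0) (h1 : T0 ≠ ∅) (h2 : T0 ≠ {a})
    (h3 : T0 ≠ {a, b}) : (A l T0, tyγ l T0) ∈ Lγ l a b d := by
  unfold Lγ
  refine mem_insert_of_mem (mem_insert_of_mem (mem_image.2 ⟨T0, ?_, rfl⟩))
  rw [mem_sdiff, mem_powerset]
  refine ⟨fun i hi => mem_erase.2 ⟨?_, mem_univ i⟩, ?_⟩
  · rintro rfl; exact h hi
  · simp [h1, h2, h3]

theorem exτ {l a b : ι} (hla : l ≠ a) (hlb : l ≠ b) (hab : a ≠ b) (hN : 4 ≤ Fintype.card ι)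
    {d : ℝ} (hd0 : 0 < d) (hd1 : d < 1) {u : ι → ℝ} (h : Ch u {a, l}) :
    Good C (Lγ l a b d) u :=
  Or.inr ⟨_, mem_insert_self _ _, {a, l}, h,
    fun _ hδ hδ' => exact_tau hla hlb hab hN hd0 hd1 hδ hδ'⟩

theorem exUγ {l a b : ι} {d : ℝ} {u : ι → ℝ} (T0 : Finset ι) (h1 : l ∉ T0) (h2 : T0 ≠ ∅)
    (h3 : T0 ≠ {a}) (h4 : T0 ≠ {a, b}) (h5 : T0 ≠ univ.erase l) (h6 : Ch u (insert l T0)) :
    Good C (Lγ l a b d) u := by
  right
  refine ⟨_, mem_Lγ h1 h2 h3 h4, insert l T0, h6, fun δ hδ hδ' => ?_⟩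
  simp only [tyγ, if_neg h5]
  exact exact_U h1 h5 hδ hδ'

theorem exDγ {l a b : ι} (hab : a ≠ b) (hN : 4 ≤ Fintype.card ι)
    {d : ℝ} {u : ι → ℝ} (h6 : Ch u (univ.erase l)) : Good C (Lγ l a b d) u := by
  have hcardE : (univ.erase l : Finset ι).card = Fintype.card ι - 1 := by
    rw [card_erase_of_mem (mem_univ l), card_univ]
  right
  refine ⟨_, mem_Lγ (notMem_erase l univ) ?_ ?_ ?_, univ.erase l, h6, fun δ hδ hδ' => ?_⟩
  · intro h; rw [h, card_empty] at hcardE; omega
  · intro h; rw [h, card_singleton] at hcardE; omega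
  · intro h; rw [h, card_pair hab] at hcardE; omega
  simp only [tyγ, if_true]
  exact exact_D (notMem_erase _ _) h6.1 hδ hδ'

theorem good_top (hC : Body C) (hP : Par C tp tm) (hN : 4 ≤ Fintype.card ι)
    {l a b : ι} (hla : l ≠ a) (hlb : l ≠ b) (hab : a ≠ b)
    {d : ℝ} (hd0 : 0 < d) (hd1 : d < 1)
    (hd : ∀ y ∈ F C (eh l : ι → ℝ), 0 < dp (tau l a b d) y)
    {u : ι → ℝ} (hu : ∑ i, u i = 0) (hu0 : u ≠ 0) (htop : top u = {l}) :
    Good C (Lγ l a b d) u := by
  have hB := Ch_nbot hu hu0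
  have hsub := top_subset_nbot hu hu0
  have hlmem : l ∈ nbot u := hsub (by rw [htop]; simp)
  have hins : insert l ((nbot u).erase l) = nbot u := insert_erase hlmem
  have hneE : (nbot u).erase l ≠ univ.erase l := by
    intro h
    rw [h, insert_erase (mem_univ l)] at hins
    exact hB.2.1 hins.symm
  by_cases h0 : (nbot u).erase l = ∅
  · rw [h0, insert_empty_eq] at hins
    obtain ⟨c, hc, hcu⟩ := eq_smul_eh hu hins.symm
    left
    refine ⟨_, mem_insert_self _ _, ?_⟩
    rw [hcu, F_smul hc]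
    exact hd
  by_cases h1 : (nbot u).erase l = {a}
  · apply exτ hla hlb hab hN hd0 hd1
    rw [pair_comm, ← h1, hins]
    exact hB
  by_cases h2 : (nbot u).erase l = {a, b}
  · left
    refine ⟨_, mem_insert_self _ _, robust_tau hC hP hu hu0 hN hla hlb hab ?_ ?_ hd0 hd1⟩
    · have e : ({a, b, l} : Finset ι) = insert l {a, b} := by
        ext x; simp only [mem_insert, mem_singleton]; tauto
      rw [e, ← h2, hins]
      exact hB
    · intro hp
      have h3 : b ∈ top u := mem_top.2 (Pf_max hP hu hp)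
      rw [htop, mem_singleton] at h3
      exact hlb h3.symm
  · refine exUγ _ (notMem_erase _ _) h0 h1 h2 hneE ?_
    rw [hins]
    exact hB

theorem good_rest (hC : Body C) (hP : Par C tp tm) (hN : 4 ≤ Fintype.card ι)
    {l a b : ι} (hla : l ≠ a) (hlb : l ≠ b) (hab : a ≠ b)
    (hα : ∀ u : ι → ℝ, ∑ i, u i = 0 → u ≠ 0 → ∀ i, Pf C tp u i → ∀ j, j ≠ i → u j < u i)
    (hα' : ∀ u : ι → ℝ, ∑ i, u i = 0 → u ≠ 0 → ∀ i, Qf C tm u i → ∀ j, j ≠ i → u i < u j)
    {d : ℝ} (hd0 : 0 < d) (hd1 : d < 1)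
    {u : ι → ℝ} (hu : ∑ i, u i = 0) (hu0 : u ≠ 0) (hq : ¬ Qf C tm u l) (hp : ¬ Pf C tp u l)
    (htop : top u ≠ {l}) :
    Good C (Lγ l a b d) u := by
  have hT := Ch_top hu hu0
  have hB := Ch_nbot hu hu0
  have hsub := top_subset_nbot hu hu0
  have H : ∀ T : Finset ι, Ch u T → T.erase l ≠ ∅ → T.erase l ≠ {a} → T.erase l ≠ {a, b} →
      Good C (Lγ l a b d) u := by
    intro T hT h1 h2 h3
    by_cases h4 : T.erase l = univ.erase l
    · have hlT : l ∉ T := by
        intro hl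
        apply hT.2.1
        rw [← insert_erase hl, h4, insert_erase (mem_univ l)]
      rw [erase_eq_of_notMem hlT] at h4
      apply exDγ hab hN
      rw [← h4]
      exact hT
    · left
      exact ⟨_, mem_Lγ (notMem_erase _ _) h1 h2 h3,
        robust_A hC hP hu hu0 hT (nonempty_iff_ne_empty.2 h1) h4 hp hq⟩
  have hTe : (top u).erase l ≠ ∅ := by
    intro h0
    apply htop
    obtain ⟨x, hx⟩ := hT.1
    have hxl : x = l := by
      by_contra hne
      have : x ∈ (top u).erase l := mem_erase.2 ⟨hne, hx⟩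
      rw [h0] at this
      exact absurd this (notMem_empty x)
    subst hxl
    rw [← insert_erase hx, h0, insert_empty_eq]
  have hBe : (nbot u).erase l ≠ ∅ := by
    intro h0
    apply hTe
    have := erase_subset_erase l hsub
    rw [h0] at this
    exact subset_empty.1 this
  by_cases hT1 : (top u).erase l ≠ {a} ∧ (top u).erase l ≠ {a, b}
  · exact H _ hT hTe hT1.1 hT1.2
  by_cases hB1 : (nbot u).erase l ≠ {a} ∧ (nbot u).erase l ≠ {a, b}
  · exact H _ hB hBe hB1.1 hB1.2
  have hT2 : (top u).erase l = {a} ∨ (top u).erase l = {a, b} := by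
    by_contra h
    rw [not_or] at h
    exact hT1 h
  have hB2 : (nbot u).erase l = {a} ∨ (nbot u).erase l = {a, b} := by
    by_contra h
    rw [not_or] at h
    exact hB1 h
  -- membership facts
  have haT : a ∈ top u := by
    have : a ∈ (top u).erase l := by rcases hT2 with h | h <;> rw [h] <;> simp
    exact mem_of_mem_erase this
  have notQb : ¬ Qf C tm u b := by
    intro hqb
    have hlt := hα' u hu hu0 b hqb
    have h5 : ∀ x, x ≠ b → x ∈ nbot u := fun x hx => mem_nbot.2 ⟨b, hlt x hx⟩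
    have h6 : (univ \ ({a, b, l} : Finset ι)).Nonempty := by
      rw [← card_pos, card_sdiff_of_subset (subset_univ _), card_univ]
      have : ({a, b, l} : Finset ι).card ≤ 3 := card_le_three
      omega
    obtain ⟨x, hx⟩ := h6
    simp only [mem_sdiff, mem_univ, true_and, mem_insert, mem_singleton, not_or] at hx
    have h7 : x ∈ (nbot u).erase l := mem_erase.2 ⟨hx.2.2, h5 x hx.2.1⟩
    rcases hB2 with h | h <;> rw [h] at h7 <;> simp [hx.1, hx.2.1] at h7
  have notPb : ¬ Pf C tp u b := by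
    intro hpb
    exact absurd (mem_top.1 haT b) (not_le.2 (hα u hu hu0 b hpb a hab))
  by_cases hlT : l ∈ top u
  · have hins : insert l ((top u).erase l) = top u := insert_erase hlT
    rcases hT2 with h | h
    · apply exτ hla hlb hab hN hd0 hd1
      rw [pair_comm, ← h, hins]; exact hT
    · left
      refine ⟨_, mem_insert_self _ _, robust_tau hC hP hu hu0 hN hla hlb hab ?_ notPb hd0 hd1⟩
      have e : ({a, b, l} : Finset ι) = insert l {a, b} := by
        ext x; simp only [mem_insert, mem_singleton]; tauto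
      rw [e, ← h, hins]
      exact hT
  · have he : (top u).erase l = top u := erase_eq_of_notMem hlT
    rw [he] at hT2
    rcases hT2 with h | h
    · left
      refine ⟨_, mem_insert_of_mem (mem_insert_self _ _),
        robust_P1 hC hP hu hu0 (by omega) hab ?_ notQb⟩
      rw [← h]; exact hT
    · left
      refine ⟨_, mem_insert_of_mem (mem_insert_self _ _),
        robust_P2 hC hP hu hu0 (by omega) hab ?_ notPb⟩
      rw [← h]; exact hT

theorem strict_gamma (hC : Body C) (hP : Par C tp tm) (hN : 4 ≤ Fintype.card ι)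
    {l a b : ι} (hla : l ≠ a) (hlb : l ≠ b) (hab : a ≠ b)
    (hα : ∀ u : ι → ℝ, ∑ i, u i = 0 → u ≠ 0 → ∀ i, Pf C tp u i → ∀ j, j ≠ i → u j < u i)
    (hα' : ∀ u : ι → ℝ, ∑ i, u i = 0 → u ≠ 0 → ∀ i, Qf C tm u i → ∀ j, j ≠ i → u i < u j)
    (hκ : Kappa C tp l a b) :
    ∃ W : Finset (ι → ℝ), W.card ≤ 2 ^ (Fintype.card ι - 1) - 1 ∧ ∃ η : ℝ, 0 < η ∧
      ∀ u : ι → ℝ, ∑ i, u i = 0 → u ≠ 0 → ∃ w ∈ W, ∀ y ∈ F C u, η < dp w y := by
  obtain ⟨d, hd0, hd1, hd⟩ := exists_d hC hP hN hla hlb hab hκ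
  suffices h : ∀ u : ι → ℝ, ∑ i, u i = 0 → u ≠ 0 → Good C (Lγ l a b d) u by
    obtain ⟨W, hW, hη⟩ := compactness hC (Lγ l a b d) h
    exact ⟨W, hW.trans (card_Lγ hla hlb hab d hN), hη⟩
  intro u hu hu0
  by_cases hq : Qf C tm u l
  · have hlt := hα' u hu hu0 l hq
    have hnb : nbot u = univ.erase l := by
      ext x
      rw [mem_nbot, mem_erase]
      constructor
      · rintro ⟨j, hj⟩
        refine ⟨?_, mem_univ x⟩
        rintro rfl
        exact absurd (Qf_min hP hu hq j) (not_le.2 hj)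
      · rintro ⟨hx, -⟩
        exact ⟨l, hlt x hx⟩
    apply exDγ hab hN
    rw [← hnb]
    exact Ch_nbot hu hu0
  by_cases htop : top u = {l}
  · exact good_top hC hP hN hla hlb hab hd0 hd1 hd hu hu0 htop
  have hp : ¬ Pf C tp u l := by
    intro hp
    apply htop
    have h1 := hα u hu hu0 l hp
    refine eq_singleton_iff_unique_mem.2 ⟨mem_top.2 (Pf_max hP hu hp), fun x hx => ?_⟩
    by_contra hxl
    exact absurd (mem_top.1 hx l) (not_le.2 (h1 x hxl))
  exact good_rest hC hP hN hla hlb hab hα hα' hd0 hd1 hu hu0 hq hp htop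

end Pool.Agent.H153R2.Simplex
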