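import Pool.Agent.H503R2.LG.Ker
import Pool.Agent.H382P.TT

/-! LG, task 10: prime sums in one bin. -/

open Complex Filter Topology Set MeasureTheory

namespace LG

open SG (hh nn dd dl ord NZ)
open SP (RHs ZZ mu wt Mk Par Eb PS chi qq tt)

namespace PsumAux

open SP.TTAux SP.MertAux

/-- the test function -/
noncomputable def HR (P : Par) (A c : ℝ) (m : ℕ) (u : ℝ) : ℝ :=
  P.b m u * Real.sin (Real.pi * c * u) * Real.exp (-(u / A) ^ 2 / 2)

lemma HR_contDiff (P : Par) (A c : ℝ) (m : ℕ) : ContDiff ℝ 1 (HR P A c m) := by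
  have hb : ContDiff ℝ 1 (P.b m) := (P.hb m).of_le (by norm_num)
  have h1 : ContDiff ℝ 1 (fun u : ℝ => Real.sin (Real.pi * c * u)) :=
    Real.contDiff_sin.comp (contDiff_const.mul contDiff_id)
  have h2 : ContDiff ℝ 1 (fun u : ℝ => Real.exp (-(u / A) ^ 2 / 2)) := by
    apply Real.contDiff_exp.comp
    apply ContDiff.div_const
    apply ContDiff.neg
    exact (contDiff_id.div_const A).pow 2
  exact (hb.mul h1).mul h2

lemma b_zero (P : Par) (m : ℕ) (u : ℝ) (hu : 1 ≤ u ∨ u ≤ 0) : P.b m u = 0 := by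
  by_contra h
  obtain ⟨h2, hB, hl, hu'⟩ := P.hb0 m _ h
  have hBpos : (0 : ℝ) < P.B := by have := P.hB; positivity
  have hκ := P.hκ
  have hκ1 : 0 < 1 - P.κ := by have := P.hκ1; linarith
  have hm := P.hm
  have h5 : (m : ℝ) * (1 - P.κ) / P.B ≤ 1 - P.κ := by
    rw [div_le_iff₀ hBpos, mul_comm]
    apply mul_le_mul_of_nonneg_left _ hκ1.le
    exact_mod_cast hB
  have h6 : 0 ≤ ((m : ℝ) - 1) * (1 - P.κ) / P.B := by
    have : (2 : ℝ) ≤ m := by exact_mod_cast h2
    apply div_nonneg (mul_nonneg (by linarith) hκ1.le) hBpos.le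
  rcases hu with hu | hu <;> linarith

lemma HR_zero (P : Par) (A c : ℝ) (m : ℕ) (u : ℝ) (hu : 1 ≤ u ∨ u ≤ 0) : HR P A c m u = 0 := by
  simp [HR, b_zero P m u hu]

lemma HR_lip (P : Par) (A c : ℝ) (m : ℕ) :
    ∃ K : NNReal, LipschitzWith K (fun u => ((HR P A c m u : ℝ) : ℂ)) := by
  apply ContDiff.lipschitzWith_of_hasCompactSupport (n := 1) _
    (ofRealCLM.contDiff.comp (HR_contDiff P A c m)) (by norm_num)
  apply HasCompactSupport.intro (isCompact_Icc (a := (0 : ℝ)) (b := 1))
  intro u hu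
  show ((HR P A c m u : ℝ) : ℂ) = 0
  rw [HR_zero]
  · simp
  · rw [mem_Icc, not_and_or, not_le, not_le] at hu
    rcases hu with h | h
    · right; exact h.le
    · left; exact h.le

/-- `u * gh u = sin (π c u) e^{-(u/A)²/2} / π` -/
lemma u_gh (A c u : ℝ) (hc : 0 < c) : u * gh A c u =
    Real.sin (Real.pi * c * u) * Real.exp (-(u / A) ^ 2 / 2) / Real.pi := by
  unfold gh
  have hπ := Real.pi_pos
  rcases eq_or_ne u 0 with rfl | hu
  · simp
  · have h : Real.pi * c * u ≠ 0 := mul_ne_zero (mul_ne_zero hπ.ne' hc.ne') hu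
    rw [Real.sinc_of_ne_zero h]
    field_simp

/-- one term -/
lemma term_bound (P : Par) (A c T : ℝ) (hc : 0 < c) (hT : 10 ≤ T) (p m : ℕ) (hp : p ∈ PS P T)
    (hE : Eb P T p = m) (C1 C3 : ℝ) (hC3 : 0 < C3)
    (h1 : |chi P T p - Real.log p / Real.log T * P.b (Eb P T p) (Real.log p / Real.log T)| ≤
      C1 / Real.log T)
    (h2 : |bk A c T p - gh A c (Real.log p / Real.log T)| ≤ C3 / Real.log T) :
    |Real.log p / Real.log T * bk A c T p * chi P T p / p -
      1 / Real.log T * (Real.log p / p * (HR P A c m (Real.log p / Real.log T) / Real.pi))| ≤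
      (c * C1 + C3) / Real.log T * (1 / p) := by
  have hL : 0 < Real.log T := log_pos' hT
  obtain ⟨-, hp0, hp1, -⟩ := Eb_le P T hT p hp
  have hpp : (0 : ℝ) < p := by
    have := lower P T hT p hp
    have h3 : 0 < T ^ ((1 - P.κ) / P.B) := by positivity
    linarith
  set u := Real.log p / Real.log T with hu
  have hu0 : 0 ≤ u := div_nonneg hp0 hL.le
  have hu1 : u ≤ 1 := (div_le_one hL).mpr hp1
  rw [hE] at h1
  set x := chi P T p
  set g := gh A c u with hg
  set b := P.b m u with hb
  have hgl : |g| ≤ c := gh_le A c u hc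
  have hbkl : |bk A c T p| ≤ c := bk_le A c T p hc
  have hbb := P.hb1 m u
  have hub : |u * b| ≤ 1 := by
    rw [abs_of_nonneg (mul_nonneg hu0 hbb.1)]; exact hbb.2
  have key : 1 / Real.log T * (Real.log p / p * (HR P A c m u / Real.pi)) =
      u * g * (u * b) / p := by
    have h3 := u_gh A c u hc
    have h4 : HR P A c m u / Real.pi = b * (u * g) := by
      rw [hg, h3]; unfold HR; ring
    rw [h4, hu]
    field_simp
  rw [key]
  have e : u * bk A c T p * x / p - u * g * (u * b) / p =
      (u * bk A c T p * (x - u * b) + u * (u * b) * (bk A c T p - g)) * (1 / p) := by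
    field_simp
    ring
  rw [e, abs_mul, abs_of_pos (by positivity : (0:ℝ) < 1 / p)]
  apply mul_le_mul_of_nonneg_right _ (by positivity)
  calc |u * bk A c T p * (x - u * b) + u * (u * b) * (bk A c T p - g)|
      ≤ |u * bk A c T p * (x - u * b)| + |u * (u * b) * (bk A c T p - g)| := abs_add_le _ _
    _ = u * |bk A c T p| * |x - u * b| + u * |u * b| * |bk A c T p - g| := by
        rw [abs_mul, abs_mul, abs_mul, abs_mul, abs_of_nonneg hu0]
    _ ≤ 1 * c * (C1 / Real.log T) + 1 * 1 * (C3 / Real.log T) := by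
        have h5 : 0 ≤ C1 / Real.log T := (abs_nonneg _).trans h1
        gcongr
    _ = (c * C1 + C3) / Real.log T := by ring

end PsumAux

open PsumAux SP.TTAux SP.MertAux

theorem PSUM (P : Par) (A c : ℝ) (hA : 0 < A) (hc : 0 < c) (m : ℕ) :
    Tendsto (fun T : ℝ => ∑ p ∈ (PS P T).filter (fun p => Eb P T p = m),
      Real.log p / Real.log T * bk A c T p * chi P T p / p) atTop (𝓝 (sm P A c m / Real.pi)) := by
  obtain ⟨C1, T1, hC1, hT1, hchi⟩ := SP.chi_approx P
  obtain ⟨C3, T3, hC3, hT3, hbk⟩ := bk_approx A c hA hc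
  obtain ⟨K, hK⟩ := HR_lip P A c m
  obtain ⟨C2, hC2, hmert⟩ := SP.mert (fun u => ((HR P A c m u : ℝ) : ℂ)) K hK
    (fun u hu => by show ((HR P A c m u : ℝ) : ℂ) = 0; rw [HR_zero P A c m u (Or.inl hu)]; simp)
  have hBpos : (0 : ℝ) < P.B := by have := P.hB; positivity
  have hκ := P.hκ
  have hκ1 : 0 < 1 - P.κ := by have := P.hκ1; linarith
  have he : 0 < (1 - P.κ) / P.B := by positivity
  have hπ := Real.pi_pos
  rw [tendsto_iff_norm_sub_tendsto_zero]
  have hsm : sm P A c m = ∫ u in (0 : ℝ)..1, HR P A c m u := rfl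
  have hbound : ∀ᶠ T : ℝ in atTop, ‖(∑ p ∈ (PS P T).filter (fun p => Eb P T p = m),
      Real.log p / Real.log T * bk A c T p * chi P T p / p) - sm P A c m / Real.pi‖ ≤
      ((c * C1 + C3) * C1 + C2 / Real.pi) * (Real.log T)⁻¹ := by
    have hsq : ∀ᶠ T : ℝ in atTop, P.B / (1 - P.κ) ≤ Real.sqrt (Real.log T) :=
      (Real.tendsto_sqrt_atTop.comp Real.tendsto_log_atTop).eventually_ge_atTop _
    filter_upwards [eventually_ge_atTop T1, eventually_ge_atTop T3, eventually_ge_atTop (10 : ℝ),
      hsq] with T hTT1 hTT3 hT10 hTs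
    obtain ⟨hc1, hs⟩ := hchi T hTT1
    have hL := log_pos' hT10
    have hrange : ∀ p ∈ PS P T, |bk A c T p - gh A c (Real.log p / Real.log T)| ≤
        C3 / Real.log T := by
      intro p hp
      apply hbk T hTT3
      · refine le_trans ?_ (lower P T hT10 p hp)
        apply Real.rpow_le_rpow_of_exponent_le (by linarith)
        have hs0 : 0 < Real.sqrt (Real.log T) := Real.sqrt_pos.mpr hL
        rw [div_le_div_iff₀ hs0 hBpos]
        rw [div_le_iff₀ hκ1] at hTs
        linarith
      · have h1 := PS_sub P T hT10 hp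
        rw [Finset.mem_filter, Finset.mem_Icc] at h1
        have h2 : (p : ℝ) ≤ T := (Nat.le_floor_iff (by linarith)).mp h1.1.2
        have h3 : T ≤ T ^ (2 : ℝ) := by
          have := Real.rpow_le_rpow_of_exponent_le (x := T) (by linarith) (y := 1) (z := 2)
            (by norm_num)
          rwa [Real.rpow_one] at this
        linarith
    -- comparison with the test function
    have hA1 : |(∑ p ∈ (PS P T).filter (fun p => Eb P T p = m),
        Real.log p / Real.log T * bk A c T p * chi P T p / p) -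
        ∑ p ∈ (PS P T).filter (fun p => Eb P T p = m),
          1 / Real.log T * (Real.log p / p * (HR P A c m (Real.log p / Real.log T) / Real.pi))| ≤
        (c * C1 + C3) * C1 * (Real.log T)⁻¹ := by
      rw [← Finset.sum_sub_distrib]
      refine (Finset.abs_sum_le_sum_abs _ _).trans ?_
      calc _ ≤ ∑ p ∈ (PS P T).filter (fun p => Eb P T p = m),
            (c * C1 + C3) / Real.log T * (1 / p : ℝ) := by
            apply Finset.sum_le_sum
            intro p hp
            rw [Finset.mem_filter] at hp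
            exact term_bound P A c T hc hT10 p m hp.1 hp.2 C1 C3 hC3 (hc1 p hp.1).2.1
              (hrange p hp.1)
        _ ≤ ∑ p ∈ PS P T, (c * C1 + C3) / Real.log T * (1 / p : ℝ) := by
            apply Finset.sum_le_sum_of_subset_of_nonneg (Finset.filter_subset _ _)
            intro p hp _
            positivity
        _ = (c * C1 + C3) / Real.log T * ∑ p ∈ PS P T, (1 / p : ℝ) := by rw [Finset.mul_sum]
        _ ≤ (c * C1 + C3) / Real.log T * C1 := by gcongr
        _ = _ := by ring
    have hsum : ∑ p ∈ (PS P T).filter (fun p => Eb P T p = m),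
          1 / Real.log T * (Real.log p / p * (HR P A c m (Real.log p / Real.log T) / Real.pi)) =
        1 / Real.pi * (1 / Real.log T * ∑ p ∈ (Finset.Icc 1 ⌊T⌋₊).filter Nat.Prime,
            (Real.log p / p) * HR P A c m (Real.log p / Real.log T)) := by
      rw [Finset.mul_sum, Finset.mul_sum]
      rw [← Finset.sum_subset (s₁ := (PS P T).filter (fun p => Eb P T p = m))
        (s₂ := (Finset.Icc 1 ⌊T⌋₊).filter Nat.Prime)]
      · refine Finset.sum_congr rfl fun p _ => ?_
        ring
      · exact (Finset.filter_subset _ _).trans (PS_sub P T hT10)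
      · intro p hp hp'
        rw [Finset.mem_filter] at hp
        have : P.b m (Real.log p / Real.log T) = 0 := by
          by_contra h
          exact hp' (Finset.mem_filter.mpr (mem_of_b P T hT10 p m hp.2 h))
        simp [HR, this]
    have hC : |(1 / Real.log T * ∑ p ∈ (Finset.Icc 1 ⌊T⌋₊).filter Nat.Prime,
            (Real.log p / p) * HR P A c m (Real.log p / Real.log T)) - sm P A c m| ≤
        C2 / Real.log T := by
      have h1 := hmert T hT10
      have h2 : ((1 / Real.log T : ℝ) : ℂ) * ∑ p ∈ (Finset.Icc 1 ⌊T⌋₊).filter Nat.Prime,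
          ((Real.log p / p : ℝ) : ℂ) * ((HR P A c m (Real.log p / Real.log T) : ℝ) : ℂ) -
          ∫ u in (0 : ℝ)..1, ((HR P A c m u : ℝ) : ℂ) =
          (((1 / Real.log T * ∑ p ∈ (Finset.Icc 1 ⌊T⌋₊).filter Nat.Prime,
            (Real.log p / p) * HR P A c m (Real.log p / Real.log T)) - sm P A c m : ℝ) : ℂ) := by
        rw [hsm, intervalIntegral.integral_ofReal]
        push_cast
        rfl
      rw [h2, Complex.norm_real, Real.norm_eq_abs] at h1
      exact h1
    rw [hsum] at hA1
    rw [Real.norm_eq_abs]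
    set S1 := ∑ p ∈ (PS P T).filter (fun p => Eb P T p = m),
        Real.log p / Real.log T * bk A c T p * chi P T p / p
    set S2 := 1 / Real.log T * ∑ p ∈ (Finset.Icc 1 ⌊T⌋₊).filter Nat.Prime,
            (Real.log p / p) * HR P A c m (Real.log p / Real.log T)
    have e : S1 - sm P A c m / Real.pi =
        (S1 - 1 / Real.pi * S2) + (1 / Real.pi) * (S2 - sm P A c m) := by ring
    rw [e]
    refine (abs_add_le _ _).trans ?_
    rw [abs_mul, abs_of_pos (by positivity : (0 : ℝ) < 1 / Real.pi)]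
    calc _ ≤ (c * C1 + C3) * C1 * (Real.log T)⁻¹ + 1 / Real.pi * (C2 / Real.log T) := by gcongr
      _ = _ := by ring
  have hlim : Tendsto (fun T : ℝ => ((c * C1 + C3) * C1 + C2 / Real.pi) * (Real.log T)⁻¹)
      atTop (𝓝 0) := by
    have h2 := (Real.tendsto_log_atTop.inv_tendsto_atTop).const_mul
      ((c * C1 + C3) * C1 + C2 / Real.pi)
    simpa using h2
  exact squeeze_zero' (Eventually.of_forall fun _ => norm_nonneg _) hbound hlim

theorem PSUM_abs (P : Par) (A c : ℝ) (hA : 0 < A) (hc : 0 < c) : ∃ C T0 : ℝ, 0 < C ∧ 10 ≤ T0 ∧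
    ∀ T : ℝ, T0 ≤ T → ∑ p ∈ PS P T, |Real.log p / Real.log T * bk A c T p * chi P T p / p| ≤ C ∧
      ∑ p ∈ PS P T, |Real.log p * bk A c T ((p ^ 2 : ℕ) : ℝ) / (p : ℝ) ^ 2| ≤ C := by
  have _ := hA
  obtain ⟨C1, T1, hC1, hT1, hchi⟩ := SP.chi_approx P
  refine ⟨2 * c * C1, T1, by positivity, hT1, fun T hT => ?_⟩
  have hT10 : 10 ≤ T := hT1.trans hT
  obtain ⟨hc1, hs⟩ := hchi T hT
  have hL := log_pos' hT10
  have hfac : ∀ p ∈ PS P T, (0 : ℝ) < p ∧ 0 ≤ Real.log p ∧ Real.log p ≤ Real.log T := by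
    intro p hp
    obtain ⟨-, hp0, hp1, -⟩ := Eb_le P T hT10 p hp
    refine ⟨?_, hp0, hp1⟩
    have := lower P T hT10 p hp
    have h3 : 0 < T ^ ((1 - P.κ) / P.B) := by positivity
    linarith
  constructor
  · calc _ ≤ ∑ p ∈ PS P T, 2 * c * (1 / p : ℝ) := by
          apply Finset.sum_le_sum
          intro p hp
          obtain ⟨hpp, hp0, hp1⟩ := hfac p hp
          have hu0 : 0 ≤ Real.log p / Real.log T := div_nonneg hp0 hL.le
          have hu1 : Real.log p / Real.log T ≤ 1 := (div_le_one hL).mpr hp1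
          rw [abs_div, abs_mul, abs_mul, abs_of_nonneg hu0, abs_of_pos hpp, div_eq_mul_one_div]
          apply mul_le_mul_of_nonneg_right _ (by positivity)
          calc _ ≤ 1 * c * 2 := by
                have h1 := bk_le A c T p hc
                have h2 := (hc1 p hp).2.2
                gcongr
            _ = 2 * c := by ring
      _ = 2 * c * ∑ p ∈ PS P T, (1 / p : ℝ) := by rw [Finset.mul_sum]
      _ ≤ 2 * c * C1 := by gcongr
  · calc _ ≤ ∑ p ∈ PS P T, c * (1 / p : ℝ) := by
          apply Finset.sum_le_sum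
          intro p hp
          obtain ⟨hpp, hp0, hp1⟩ := hfac p hp
          rw [abs_div, abs_mul, abs_of_nonneg hp0, abs_of_pos (by positivity : (0:ℝ) < (p:ℝ) ^ 2)]
          rw [div_le_iff₀ (by positivity)]
          have h1 := bk_le A c T ((p ^ 2 : ℕ) : ℝ) hc
          have h2 : Real.log p ≤ p := by
            have := Real.log_le_sub_one_of_pos hpp
            linarith
          calc Real.log p * |bk A c T ((p ^ 2 : ℕ) : ℝ)| ≤ p * c := by gcongr
            _ = c * (1 / p) * (p : ℝ) ^ 2 := by field_simp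
      _ = c * ∑ p ∈ PS P T, (1 / p : ℝ) := by rw [Finset.mul_sum]
      _ ≤ c * C1 := by gcongr
      _ ≤ 2 * c * C1 := by nlinarith [mul_pos hc hC1]

end LG
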