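import Pool.Agent.H153R2.Gamma

set_option autoImplicit false
set_option linter.unusedSectionVars false

open Finset Topology

namespace Pool.Agent.H153R2.Simplex

variable {ι : Type} [Fintype ι] [DecidableEq ι]

variable {C : Set (ι → ℝ)} {tp tm : ℝ}

/-- `m` hyperplanes suffice. -/
def Conc (C : Set (ι → ℝ)) (m : ℕ) : Prop :=
  ∃ W : Finset (ι → ℝ), W.card ≤ m ∧ ∃ η : ℝ, 0 < η ∧
      ∀ u : ι → ℝ, ∑ i, u i = 0 → u ≠ 0 → ∃ w ∈ W, ∀ y ∈ F C u, η < dp w y

/-- The reflected set. -/
def Ng (C : Set (ι → ℝ)) : Set (ι → ℝ) := {y | -y ∈ C}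

theorem mem_Ng {y : ι → ℝ} : y ∈ Ng C ↔ -y ∈ C := Iff.rfl

theorem Body.neg (hC : Body C) : Body (Ng C) where
  cpt := by
    have : Ng C = (fun y => -y) '' C := by
      ext y
      constructor
      · intro h; exact ⟨-y, h, neg_neg y⟩
      · rintro ⟨z, hz, rfl⟩
        change - -z ∈ C
        rw [neg_neg]; exact hz
    rw [this]
    exact hC.cpt.image continuous_neg
  cvx := by
    intro x hx y hy a b ha hb hab
    have h := hC.cvx hx hy ha hb hab
    rw [mem_Ng]
    have e : -(a • x + b • y) = a • -x + b • -y := by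
      rw [smul_neg, smul_neg, neg_add]
    rw [e]
    exact h
  sum0 := fun y hy => by
    have h := hC.sum0 _ hy
    simp only [Pi.neg_apply, sum_neg_distrib, neg_eq_zero] at h
    exact h
  perm := fun σ y hy => hC.perm σ (-y) hy
  nhds := by
    obtain ⟨ε, hε, h⟩ := hC.nhds
    refine ⟨ε, hε, fun y hy hy' => h (-y) ?_ (fun i => ?_)⟩
    · simp only [Pi.neg_apply, sum_neg_distrib, hy, neg_zero]
    · rw [Pi.neg_apply, abs_neg]; exact hy' i

theorem Par.neg (hP : Par C tp tm) : Par (Ng C) tm tp where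
  tp_pos := hP.tm_pos
  tm_pos := hP.tp_pos
  tp_mem := fun i => by
    rw [mem_Ng, ← neg_smul]; exact hP.tm_mem i
  tm_mem := fun i => by
    rw [mem_Ng, ← neg_smul, neg_neg]; exact hP.tp_mem i
  tp_max := fun i s h => by
    rw [mem_Ng, ← neg_smul] at h
    have := hP.tm_max i _ h
    linarith
  tm_max := fun i s h => by
    rw [mem_Ng, ← neg_smul] at h
    have := hP.tp_max i _ h
    linarith

theorem mem_F_Ng {u y : ι → ℝ} : y ∈ F (Ng C) u ↔ -y ∈ F C (-u) := by
  constructor
  · rintro ⟨h1, h2⟩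
    refine ⟨h1, fun z hz => ?_⟩
    have h3 := h2 (-z) (by rw [mem_Ng, neg_neg]; exact hz)
    rw [dp_neg_right] at h3
    rw [dp_neg_left, dp_neg_left, dp_neg_right]
    linarith
  · rintro ⟨h1, h2⟩
    refine ⟨h1, fun z hz => ?_⟩
    have h3 := h2 (-z) hz
    rw [dp_neg_left, dp_neg_left, dp_neg_right, dp_neg_right] at h3
    linarith

theorem Conc_neg {m : ℕ} (h : Conc (Ng C) m) : Conc C m := by
  classical
  obtain ⟨W, hW, η, hη, h⟩ := h
  refine ⟨W.image (fun w => -w), card_image_le.trans hW, η, hη, fun u hu hu0 => ?_⟩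
  obtain ⟨w, hw, hwy⟩ := h (-u) (by simp only [Pi.neg_apply, sum_neg_distrib, hu, neg_zero])
    (neg_ne_zero.2 hu0)
  refine ⟨-w, mem_image_of_mem _ hw, fun y hy => ?_⟩
  have := hwy (-y) (mem_F_Ng.2 (by rw [neg_neg, neg_neg]; exact hy))
  rw [dp_neg_right] at this
  rw [dp_neg_left]
  exact this

/-- A three-dimensional centred cross-body. -/
def Cross (C : Set (ι → ℝ)) : Prop :=
  Fintype.card ι = 4 ∧ ∃ v : Fin 3 → (ι → ℝ), LinearIndependent ℝ v ∧ (∀ k, ∑ i, v k i = 0) ∧
    C = convexHull ℝ (⋃ k, {v k, -v k})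

theorem sgn_smul {V : Type} [AddCommGroup V] [Module ℝ V] (c : ℝ) (v : V) :
    |c| • (if 0 ≤ c then v else -v) = c • v := by
  by_cases h : 0 ≤ c
  · rw [if_pos h, abs_of_nonneg h]
  · rw [if_neg h, abs_of_neg (not_le.1 h), smul_neg, neg_smul, neg_neg]

theorem comb_mem {V : Type} [AddCommGroup V] [Module ℝ V] {S : Set V} (hS : Convex ℝ S)
    {v1 v2 v3 : V} (h1 : v1 ∈ S) (h1' : -v1 ∈ S) (h2 : v2 ∈ S) (h2' : -v2 ∈ S) (h3 : v3 ∈ S)
    (h3' : -v3 ∈ S) {c1 c2 c3 : ℝ} (hc : |c1| + |c2| + |c3| ≤ 1) :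
    c1 • v1 + c2 • v2 + c3 • v3 ∈ S := by
  have h0 : (0 : V) ∈ S := by
    have := hS h1 h1' (a := 1 / 2) (b := 1 / 2) (by norm_num) (by norm_num) (by norm_num)
    rw [smul_neg, add_neg_cancel] at this
    exact this
  have key := hS.sum_mem (t := (univ : Finset (Fin 4)))
    (w := ![|c1|, |c2|, |c3|, 1 - |c1| - |c2| - |c3|])
    (z := ![if 0 ≤ c1 then v1 else -v1, if 0 ≤ c2 then v2 else -v2,
      if 0 ≤ c3 then v3 else -v3, 0]) (by
      intro i _
      fin_cases i
      · exact abs_nonneg c1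
      · exact abs_nonneg c2
      · exact abs_nonneg c3
      · change 0 ≤ 1 - |c1| - |c2| - |c3|
        linarith) (by
      rw [Fin.sum_univ_four]
      change |c1| + |c2| + |c3| + (1 - |c1| - |c2| - |c3|) = 1
      ring) (by
      intro i _
      fin_cases i
      · change (if 0 ≤ c1 then v1 else -v1) ∈ S
        split_ifs
        · exact h1
        · exact h1'
      · change (if 0 ≤ c2 then v2 else -v2) ∈ S
        split_ifs
        · exact h2
        · exact h2'
      · change (if 0 ≤ c3 then v3 else -v3) ∈ S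
        split_ifs
        · exact h3
        · exact h3'
      · exact h0)
  rw [Fin.sum_univ_four] at key
  change |c1| • (if 0 ≤ c1 then v1 else -v1) + |c2| • (if 0 ≤ c2 then v2 else -v2) +
    |c3| • (if 0 ≤ c3 then v3 else -v3) + (1 - |c1| - |c2| - |c3|) • (0 : V) ∈ S at key
  rw [sgn_smul, sgn_smul, sgn_smul, smul_zero, add_zero] at key
  exact key

/-- The vector with value `Y` at `i, j` and `-Y` elsewhere. -/
def Vv (Y : ℝ) (i j : ι) : ι → ℝ := fun x => if x = i ∨ x = j then Y else -Y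

theorem octa {Y : ℝ} (hY : 0 < Y) (hCvx : Convex ℝ C) (hsum : ∀ y ∈ C, ∑ i, y i = 0)
    (hle : ∀ y ∈ C, ∀ i, |y i| ≤ Y)
    {l a b c : ι} (hla : l ≠ a) (hlb : l ≠ b) (hab : a ≠ b) (hlc : l ≠ c) (hac : a ≠ c)
    (hbc : b ≠ c) (huniv : (univ : Finset ι) = {l, a, b, c})
    (hV : ∀ i j, i ≠ j → Vv Y i j ∈ C) : Cross C := by
  have hsum4 : ∀ y : ι → ℝ, ∑ i, y i = y l + y a + y b + y c := by
    intro y
    rw [huniv, sum_insert, sum_insert, sum_insert, sum_singleton]
    · ring
    · simp [hbc]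
    · simp [hab, hac]
    · simp [hla, hlb, hlc]
  have hall : ∀ x : ι, x = l ∨ x = a ∨ x = b ∨ x = c := by
    intro x
    have := mem_univ x
    rw [huniv] at this
    simpa using this
  have hcard : Fintype.card ι = 4 := by
    rw [← card_univ, huniv, card_insert_of_notMem, card_insert_of_notMem, card_insert_of_notMem,
      card_singleton]
    · simp [hbc]
    · simp [hab, hac]
    · simp [hla, hlb, hlc]
  -- values
  have n1 : -Vv Y l c = Vv Y a b := by
    funext x
    rcases hall x with rfl | rfl | rfl | rfl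
    · simp [Vv, hla, hlb]
    · simp [Vv, hla.symm, hac]
    · simp [Vv, hlb.symm, hbc]
    · simp [Vv, hac.symm, hbc.symm]
  have n2 : -Vv Y l a = Vv Y b c := by
    funext x
    rcases hall x with rfl | rfl | rfl | rfl
    · simp [Vv, hlb, hlc]
    · simp [Vv, hab, hac]
    · simp [Vv, hlb.symm, hab.symm]
    · simp [Vv, hlc.symm, hac.symm]
  have n3 : -Vv Y l b = Vv Y a c := by
    funext x
    rcases hall x with rfl | rfl | rfl | rfl
    · simp [Vv, hla, hlc]
    · simp [Vv, hla.symm, hab]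
    · simp [Vv, hab.symm, hbc]
    · simp [Vv, hlc.symm, hbc.symm]
  have m1 := hV l c hlc
  have m2 := hV l a hla
  have m3 := hV l b hlb
  have m1' : -Vv Y l c ∈ C := by rw [n1]; exact hV a b hab
  have m2' : -Vv Y l a ∈ C := by rw [n2]; exact hV b c hbc
  have m3' : -Vv Y l b ∈ C := by rw [n3]; exact hV a c hac
  have e1l : Vv Y l c l = Y := by simp [Vv]
  have e1c : Vv Y l c c = Y := by simp [Vv]
  have e1a : Vv Y l c a = -Y := by simp [Vv, hla.symm, hac]
  have e1b : Vv Y l c b = -Y := by simp [Vv, hlb.symm, hbc]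
  have e2l : Vv Y l a l = Y := by simp [Vv]
  have e2c : Vv Y l a c = -Y := by simp [Vv, hlc.symm, hac.symm]
  have e2a : Vv Y l a a = Y := by simp [Vv]
  have e2b : Vv Y l a b = -Y := by simp [Vv, hlb.symm, hab.symm]
  have e3l : Vv Y l b l = Y := by simp [Vv]
  have e3c : Vv Y l b c = -Y := by simp [Vv, hlc.symm, hbc.symm]
  have e3a : Vv Y l b a = -Y := by simp [Vv, hla.symm, hab]
  have e3b : Vv Y l b b = Y := by simp [Vv]
  refine ⟨hcard, ![Vv Y l c, Vv Y l a, Vv Y l b], ?_, ?_, ?_⟩
  · rw [Fintype.linearIndependent_iff]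
    intro g hg
    rw [Fin.sum_univ_three] at hg
    change g 0 • Vv Y l c + g 1 • Vv Y l a + g 2 • Vv Y l b = 0 at hg
    have gl := congrFun hg l
    have ga := congrFun hg a
    have gb := congrFun hg b
    have gc := congrFun hg c
    simp only [Pi.add_apply, Pi.smul_apply, smul_eq_mul, Pi.zero_apply, e1l, e1a, e1b, e1c, e2l,
      e2a, e2b, e2c, e3l, e3a, e3b, e3c] at gl ga gb gc
    have h0 : g 0 * Y = 0 := by linarith
    have h1 : g 1 * Y = 0 := by linarith
    have h2 : g 2 * Y = 0 := by linarith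
    intro i
    fin_cases i
    · exact (mul_eq_zero.1 h0).resolve_right hY.ne'
    · exact (mul_eq_zero.1 h1).resolve_right hY.ne'
    · exact (mul_eq_zero.1 h2).resolve_right hY.ne'
  · intro k
    fin_cases k
    · exact hsum _ m1
    · exact hsum _ m2
    · exact hsum _ m3
  · apply Set.Subset.antisymm
    · intro y hy
      have hs := hsum y hy
      rw [hsum4] at hs
      set S : Set (ι → ℝ) := ⋃ k, {(![Vv Y l c, Vv Y l a, Vv Y l b] : Fin 3 → (ι → ℝ)) k,
        -(![Vv Y l c, Vv Y l a, Vv Y l b] : Fin 3 → (ι → ℝ)) k} with hS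
      have hSub := subset_convexHull ℝ S
      have k1 : Vv Y l c ∈ S := Set.mem_iUnion.2 ⟨0, Or.inl rfl⟩
      have k1' : -Vv Y l c ∈ S := Set.mem_iUnion.2 ⟨0, Or.inr rfl⟩
      have k2 : Vv Y l a ∈ S := Set.mem_iUnion.2 ⟨1, Or.inl rfl⟩
      have k2' : -Vv Y l a ∈ S := Set.mem_iUnion.2 ⟨1, Or.inr rfl⟩
      have k3 : Vv Y l b ∈ S := Set.mem_iUnion.2 ⟨2, Or.inl rfl⟩
      have k3' : -Vv Y l b ∈ S := Set.mem_iUnion.2 ⟨2, Or.inr rfl⟩
      have hyl := abs_le.1 (hle y hy l)
      have hya := abs_le.1 (hle y hy a)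
      have hyb := abs_le.1 (hle y hy b)
      have hyc := abs_le.1 (hle y hy c)
      have hc : |(y l + y c) / (2 * Y)| + |(y l + y a) / (2 * Y)| + |(y l + y b) / (2 * Y)| ≤ 1 := by
        have h2Y : 0 < 2 * Y := by linarith
        rw [abs_div, abs_div, abs_div, abs_of_pos h2Y, ← add_div, ← add_div, div_le_one h2Y]
        rcases abs_cases (y l + y c) with ⟨h1, -⟩ | ⟨h1, -⟩ <;>
        rcases abs_cases (y l + y a) with ⟨h2, -⟩ | ⟨h2, -⟩ <;>
        rcases abs_cases (y l + y b) with ⟨h3, -⟩ | ⟨h3, -⟩ <;>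
        rw [h1, h2, h3] <;> linarith [hyl.1, hyl.2, hya.1, hya.2, hyb.1, hyb.2, hyc.1, hyc.2]
      have key := comb_mem (convex_convexHull ℝ S) (hSub k1) (hSub k1') (hSub k2) (hSub k2')
        (hSub k3) (hSub k3') hc
      have e : y = ((y l + y c) / (2 * Y)) • Vv Y l c + ((y l + y a) / (2 * Y)) • Vv Y l a +
          ((y l + y b) / (2 * Y)) • Vv Y l b := by
        funext x
        simp only [Pi.add_apply, Pi.smul_apply, smul_eq_mul]
        rcases hall x with h | h | h | h <;> rw [h]
        · rw [e1l, e2l, e3l]; field_simp; linarith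
        · rw [e1a, e2a, e3a]; field_simp; linarith
        · rw [e1b, e2b, e3b]; field_simp; linarith
        · rw [e1c, e2c, e3c]; field_simp; linarith
      rw [e]
      exact key
    · refine convexHull_min ?_ hCvx
      intro y hy
      rw [Set.mem_iUnion] at hy
      obtain ⟨k, hk⟩ := hy
      fin_cases k
      · rcases hk with hk | hk
        · rw [hk]; exact m1
        · rw [hk]; exact m1'
      · rcases hk with hk | hk
        · rw [hk]; exact m2
        · rw [hk]; exact m2'
      · rcases hk with hk | hk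
        · rw [hk]; exact m3
        · rw [hk]; exact m3'

theorem Cross_neg (h : Cross (Ng C)) : Cross C := by
  obtain ⟨h1, v, hv1, hv2, hv3⟩ := h
  refine ⟨h1, v, hv1, hv2, ?_⟩
  have e : C = (LinearMap.lsmul ℝ (ι → ℝ) (-1)) '' (Ng C) := by
    ext y
    constructor
    · intro hy
      refine ⟨-y, ?_, ?_⟩
      · rw [mem_Ng, neg_neg]; exact hy
      · simp
    · rintro ⟨z, hz, rfl⟩
      rw [mem_Ng] at hz
      have : (LinearMap.lsmul ℝ (ι → ℝ) (-1)) z = -z := by simp
      rw [this]; exact hz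
  rw [e, hv3, LinearMap.image_convexHull, Set.image_iUnion]
  congr 1
  refine Set.iUnion_congr fun k => ?_
  rw [Set.image_pair]
  have h1 : (LinearMap.lsmul ℝ (ι → ℝ) (-1)) (v k) = -v k := by simp
  have h2 : (LinearMap.lsmul ℝ (ι → ℝ) (-1)) (-v k) = v k := by simp
  rw [h1, h2, Set.pair_comm]

theorem strict_aux (hC : Body C) (hP : Par C tp tm) (hN : 4 ≤ Fintype.card ι) (hle : tm ≤ tp) :
    Conc C (2 ^ (Fintype.card ι - 1) - 1) ∨ Cross C := by
  have hN' : (4 : ℝ) ≤ Fintype.card ι := by exact_mod_cast hN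
  obtain ⟨l, a, b, hla, hlb, hab⟩ := Fintype.two_lt_card_iff.1 (show 2 < Fintype.card ι by omega)
  by_cases h1 : Alpha C tp
  · left; exact strict_alpha hC hP hN h1 l
  by_cases h2 : Alpha (Ng C) tm
  · left; exact Conc_neg (strict_alpha hC.neg hP.neg hN h2 l)
  by_cases hκ : Kappa C tp l a b
  · left
    refine strict_gamma hC hP hN hla hlb hab ?_ ?_ hκ
    · intro u hu hu0 i hi
      exact not_alpha hC hP (by omega) h1 hu hu0 hi
    · intro u hu hu0 i hi j hj
      have h3 : Pf (Ng C) tm (-u) i := by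
        unfold Pf
        rw [mem_F_Ng, neg_neg, ← neg_smul]
        exact hi
      have h4 := not_alpha hC.neg hP.neg (by omega) h2
        (u := -u) (by simp only [Pi.neg_apply, sum_neg_distrib, hu, neg_zero])
        (neg_ne_zero.2 hu0) h3 j hj
      simp only [Pi.neg_apply] at h4
      linarith
  right
  unfold Kappa at hκ
  push Not at hκ
  obtain ⟨y, hy, hyl, hyj⟩ := hκ
  set Y := tp * (1 - 1 / (Fintype.card ι : ℝ)) with hYdef
  have hN1 : 0 < 1 - 1 / (Fintype.card ι : ℝ) := by
    rw [sub_pos, div_lt_one (by linarith)]; linarith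
  have hYpos : 0 < Y := mul_pos hP.tp_pos hN1
  have hmY : tm * (1 - 1 / (Fintype.card ι : ℝ)) ≤ Y := mul_le_mul_of_nonneg_right hle hN1.le
  have hbl : b ∉ ({l} : Finset ι) := by simpa using hlb.symm
  have habl : a ∉ ({b, l} : Finset ι) := by simp [hab, hla.symm]
  have hcard3 : ({a, b, l} : Finset ι).card = 3 := by
    rw [card_insert_of_notMem habl, card_insert_of_notMem hbl, card_singleton]
  have hRcard : (univ \ ({a, b, l} : Finset ι)).card = Fintype.card ι - 3 := by
    rw [card_sdiff_of_subset (subset_univ _), card_univ, hcard3]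
  have hyR : ∀ j ∈ univ \ ({a, b, l} : Finset ι), y j = Y := by
    intro j hj
    simp only [mem_sdiff, mem_univ, true_and, mem_insert, mem_singleton, not_or] at hj
    exact le_antisymm (coord_le hC hP (by omega) hy j).1 (hyj j hj.2.2 hj.1 hj.2.1)
  have hsum := hC.sum0 y hy
  rw [← sum_sdiff (subset_univ ({a, b, l} : Finset ι)), sum_congr rfl hyR, sum_const, hRcard,
    sum_insert habl, sum_insert hbl, sum_singleton, hyl, nsmul_eq_mul,
    Nat.cast_sub (show 3 ≤ Fintype.card ι by omega)] at hsum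
  push_cast at hsum
  have hya := (coord_le hC hP (by omega) hy a).2
  have hyb := (coord_le hC hP (by omega) hy b).2
  have hNle : (Fintype.card ι : ℝ) ≤ 4 := by
    by_contra hcon
    push Not at hcon
    nlinarith
  have hN4 : Fintype.card ι = 4 := le_antisymm (by exact_mod_cast hNle) hN
  have hN4' : (Fintype.card ι : ℝ) = 4 := by exact_mod_cast hN4
  have htm : tm * (1 - 1 / (Fintype.card ι : ℝ)) = Y := by
    rw [hN4'] at hsum
    linarith
  have hyaY : y a = -Y := by
    rw [hN4'] at hsum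
    linarith
  have hybY : y b = -Y := by
    rw [hN4'] at hsum
    linarith
  rw [hN4] at hRcard
  obtain ⟨c, hc⟩ := card_eq_one.1 hRcard
  have hcR : c ∈ univ \ ({a, b, l} : Finset ι) := by rw [hc]; simp
  have hyc := hyR c hcR
  simp only [mem_sdiff, mem_univ, true_and, mem_insert, mem_singleton, not_or] at hcR
  have huniv : (univ : Finset ι) = {l, a, b, c} := by
    ext x
    simp only [mem_univ, true_iff, mem_insert, mem_singleton]
    by_cases hx : x ∈ ({a, b, l} : Finset ι)
    · simp only [mem_insert, mem_singleton] at hx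
      tauto
    · have : x ∈ univ \ ({a, b, l} : Finset ι) := by simp only [mem_sdiff, mem_univ, true_and, hx,
        not_false_eq_true]
      rw [hc, mem_singleton] at this
      tauto
  have hall : ∀ x : ι, x = l ∨ x = a ∨ x = b ∨ x = c := by
    intro x
    have := mem_univ x
    rw [huniv] at this
    simpa using this
  refine octa hYpos hC.cvx hC.sum0 ?_ hla hlb hab (Ne.symm hcR.2.2) (Ne.symm hcR.1)
    (Ne.symm hcR.2.1) huniv ?_
  · intro z hz i
    have h5 := coord_le hC hP (by omega) hz i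
    rw [htm] at h5
    exact abs_le.2 ⟨h5.2, h5.1⟩
  · intro i j hij
    obtain ⟨σ, hσi, hσj⟩ := exists_perm hij (Ne.symm hcR.2.2)
    have h6 := hC.perm σ y hy
    have e : (fun k => y (σ k)) = Vv Y i j := by
      funext k
      unfold Vv
      by_cases hk : k = i ∨ k = j
      · rw [if_pos hk]
        rcases hk with rfl | rfl
        · rw [hσi]; exact hyl
        · rw [hσj]; exact hyc
      · rw [if_neg hk]
        rw [not_or] at hk
        have g1 : σ k ≠ l := by
          intro h; rw [← hσi] at h; exact hk.1 (σ.injective h)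
        have g2 : σ k ≠ c := by
          intro h; rw [← hσj] at h; exact hk.2 (σ.injective h)
        rcases hall (σ k) with h | h | h | h
        · exact absurd h g1
        · rw [h]; exact hyaY
        · rw [h]; exact hybY
        · exact absurd h g2
    rw [e] at h6
    exact h6

/-- The main theorem in the sum-zero hyperplane. -/
theorem strict (hC : Body C) (hN : 4 ≤ Fintype.card ι) :
    Conc C (2 ^ (Fintype.card ι - 1) - 1) ∨ Cross C := by
  have hne : Nonempty ι := Fintype.card_pos_iff.1 (by omega)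
  obtain ⟨i⟩ := hne
  obtain ⟨tp, tm, hP⟩ := exists_par hC i (by omega)
  rcases le_total tm tp with h | h
  · exact strict_aux hC hP hN h
  · rcases strict_aux hC.neg hP.neg hN h with h1 | h1
    · exact Or.inl (Conc_neg h1)
    · exact Or.inr (Cross_neg h1)

theorem base' (hC : Body C) (hN : 4 ≤ Fintype.card ι) : Conc C (2 ^ (Fintype.card ι - 1)) := by
  have hne : Nonempty ι := Fintype.card_pos_iff.1 (by omega)
  obtain ⟨i⟩ := hne
  obtain ⟨tp, tm, hP⟩ := exists_par hC i (by omega)
  exact base hC hP (by omega) i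

end Pool.Agent.H153R2.Simplex
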