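import Pool.Agent.H153R2.Strict

set_option autoImplicit false

open Finset Topology
open scoped InnerProductSpace

namespace Pool.Agent.H153R2.Simplex

variable {d : ℕ}

/-- Centred barycentric coordinates. -/
noncomputable def co (b : AffineBasis (Fin (d + 1)) ℝ (EuclideanSpace ℝ (Fin d)))
    (x : EuclideanSpace ℝ (Fin d)) : Fin (d + 1) → ℝ := fun i => b.coord i x - 1 / ((d : ℝ) + 1)

/-- The inverse map. -/
noncomputable def Xx (b : AffineBasis (Fin (d + 1)) ℝ (EuclideanSpace ℝ (Fin d)))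
    (o : EuclideanSpace ℝ (Fin d)) (y : Fin (d + 1) → ℝ) : EuclideanSpace ℝ (Fin d) :=
  o + ∑ i, y i • (b i - o)

variable {b : AffineBasis (Fin (d + 1)) ℝ (EuclideanSpace ℝ (Fin d))}
  {o : EuclideanSpace ℝ (Fin d)}

theorem sum_co (x : EuclideanSpace ℝ (Fin d)) : ∑ i, co b x i = 0 := by
  unfold co
  have hd : ((d : ℝ) + 1) ≠ 0 := by positivity
  rw [sum_sub_distrib, b.sum_coord_apply_eq_one, sum_const, card_univ, Fintype.card_fin,
    nsmul_eq_mul]
  push_cast
  field_simp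
  ring

theorem sum_bo (ho : ∑ i, b i = ((d : ℝ) + 1) • o) : ∑ i, (b i - o) = 0 := by
  rw [sum_sub_distrib, ho, sum_const, card_univ, Fintype.card_fin, ← Nat.cast_smul_eq_nsmul ℝ]
  push_cast
  exact sub_self _

theorem Xx_co (ho : ∑ i, b i = ((d : ℝ) + 1) • o) (x : EuclideanSpace ℝ (Fin d)) :
    Xx b o (co b x) = x := by
  unfold Xx co
  have h1 : ∑ i, (b.coord i x - 1 / ((d : ℝ) + 1)) • (b i - o) =
      ∑ i, b.coord i x • b i - (∑ i, b.coord i x) • o - (1 / ((d : ℝ) + 1)) • ∑ i, (b i - o) := by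
    rw [smul_sum, sum_smul, ← sum_sub_distrib, ← sum_sub_distrib]
    refine sum_congr rfl fun i _ => ?_
    rw [sub_smul, smul_sub]
  rw [h1, b.linear_combination_coord_eq_self, b.sum_coord_apply_eq_one, sum_bo ho, one_smul,
    smul_zero, sub_zero]
  abel

theorem co_Xx (ho : ∑ i, b i = ((d : ℝ) + 1) • o) {y : Fin (d + 1) → ℝ} (hy : ∑ i, y i = 0) :
    co b (Xx b o y) = y := by
  have hd : ((d : ℝ) + 1) ≠ 0 := by positivity
  have h1 : Xx b o y = ∑ i, (y i + 1 / ((d : ℝ) + 1)) • b i := by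
    unfold Xx
    have e1 : ∑ i, y i • (b i - o) = ∑ i, y i • b i - (∑ i, y i) • o := by
      rw [sum_smul, ← sum_sub_distrib]
      exact sum_congr rfl fun i _ => smul_sub _ _ _
    have e2 : ∑ i, (y i + 1 / ((d : ℝ) + 1)) • b i =
        ∑ i, y i • b i + (1 / ((d : ℝ) + 1)) • ∑ i, b i := by
      rw [smul_sum, ← sum_add_distrib]
      exact sum_congr rfl fun i _ => add_smul _ _ _
    rw [e1, e2, hy, zero_smul, sub_zero, ho, smul_smul, one_div_mul_cancel hd, one_smul, add_comm]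
  have h2 : ∑ i, (y i + 1 / ((d : ℝ) + 1)) = 1 := by
    rw [sum_add_distrib, hy, sum_const, card_univ, Fintype.card_fin, nsmul_eq_mul]
    push_cast
    field_simp
    ring
  funext i
  unfold co
  rw [h1, ← Finset.affineCombination_eq_linear_combination univ _ _ h2,
    b.coord_apply_combination_of_mem (mem_univ i) h2]
  ring

theorem inner_eq (ho : ∑ i, b i = ((d : ℝ) + 1) • o) (u x : EuclideanSpace ℝ (Fin d)) :
    ⟪u, x⟫_ℝ - ⟪u, o⟫_ℝ = dp (fun i => ⟪u, b i - o⟫_ℝ) (co b x) := by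
  have h1 := Xx_co ho x
  unfold Xx at h1
  have h2 : ⟪u, x⟫_ℝ = ⟪u, o⟫_ℝ + ∑ i, co b x i * ⟪u, b i - o⟫_ℝ := by
    conv_lhs => rw [← h1]
    rw [inner_add_right, inner_sum]
    congr 1
    exact sum_congr rfl fun i _ => by rw [real_inner_smul_right]
  unfold dp
  rw [h2, add_sub_cancel_left]
  exact sum_congr rfl fun i _ => mul_comm _ _

theorem co_o (ho : ∑ i, b i = ((d : ℝ) + 1) • o) : co b o = 0 := by
  have h := co_Xx (b := b) (o := o) ho (y := 0) (by simp)
  have h2 : Xx b o 0 = o := by simp [Xx]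
  rw [h2] at h
  exact h

theorem exists_w (ho : ∑ i, b i = ((d : ℝ) + 1) • o) (w : Fin (d + 1) → ℝ) :
    ∃ v : EuclideanSpace ℝ (Fin d), ∀ x, ⟪v, x⟫_ℝ - ⟪v, o⟫_ℝ = dp w (co b x) := by
  set L : EuclideanSpace ℝ (Fin d) →ₗ[ℝ] ℝ := ∑ i, w i • (b.coord i).linear with hL
  refine ⟨(InnerProductSpace.toDual ℝ (EuclideanSpace ℝ (Fin d))).symm
    (LinearMap.toContinuousLinearMap L), fun x => ?_⟩
  rw [← inner_sub_right, InnerProductSpace.toDual_symm_apply, LinearMap.coe_toContinuousLinearMap',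
    hL, LinearMap.sum_apply]
  unfold dp
  refine sum_congr rfl fun i _ => ?_
  rw [LinearMap.smul_apply, smul_eq_mul]
  congr 1
  have h1 : (b.coord i).linear (x - o) = b.coord i x - b.coord i o := by
    have := (b.coord i).linearMap_vsub x o
    rw [vsub_eq_sub, vsub_eq_sub] at this
    exact this
  have h2 := congrFun (co_o ho) i
  unfold co at h2
  simp only [Pi.zero_apply] at h2
  unfold co
  rw [h1]
  linarith

theorem continuous_co : Continuous (co b) := by
  unfold co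
  refine continuous_pi fun i => ?_
  exact ((b.coord i).continuous_of_finiteDimensional).sub continuous_const

/-- The transferred body. -/
theorem body_image (ho : ∑ i, b i = ((d : ℝ) + 1) • o) {K : Set (EuclideanSpace ℝ (Fin d))}
    (hK : Convex ℝ K) (hKc : IsCompact K) (hoK : o ∈ interior K)
    (hsym : ∀ σ : Equiv.Perm (Fin (d + 1)),
      ∃ g : EuclideanSpace ℝ (Fin d) →ᵃ[ℝ] EuclideanSpace ℝ (Fin d),
        (∀ i, g (b i) = b (σ i)) ∧ g '' K = K) : Body (co b '' K) where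
  cpt := hKc.image continuous_co
  cvx := by
    rintro _ ⟨x, hx, rfl⟩ _ ⟨y, hy, rfl⟩ s t hs ht hst
    refine ⟨s • x + t • y, hK hx hy hs ht hst, ?_⟩
    funext i
    unfold co
    have h1 : b.coord i (s • x + t • y) = s * b.coord i x + t * b.coord i y := by
      have := Convex.combo_affine_apply (f := b.coord i) (x := x) (y := y) hst
      rw [this, smul_eq_mul, smul_eq_mul]
    simp only [Pi.add_apply, Pi.smul_apply, smul_eq_mul]
    rw [h1]
    have : (s + t) * (1 / ((d : ℝ) + 1)) = 1 / ((d : ℝ) + 1) := by rw [hst, one_mul]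
    linarith
  sum0 := by
    rintro _ ⟨x, hx, rfl⟩
    exact sum_co x
  perm := by
    rintro σ _ ⟨x, hx, rfl⟩
    obtain ⟨g, hg1, hg2⟩ := hsym σ⁻¹
    refine ⟨g x, ?_, ?_⟩
    · rw [← hg2]; exact ⟨x, hx, rfl⟩
    · have h2 : g x = ∑ i, b.coord (σ i) x • b i := by
        conv_lhs => rw [← b.linear_combination_coord_eq_self x]
        rw [← Finset.affineCombination_eq_linear_combination univ _ _
          (b.sum_coord_apply_eq_one x), Finset.map_affineCombination _ _ _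
          (b.sum_coord_apply_eq_one x), Finset.affineCombination_eq_linear_combination univ _ _
          (b.sum_coord_apply_eq_one x)]
        rw [← Equiv.sum_comp σ]
        refine sum_congr rfl fun i _ => ?_
        rw [Function.comp_apply, hg1]
        have e : (σ⁻¹ : Equiv.Perm (Fin (d + 1))) (σ i) = i := by simp
        rw [e]
      have h3 : ∑ i, b.coord (σ i) x = 1 := by
        rw [Equiv.sum_comp σ (fun i => b.coord i x)]
        exact b.sum_coord_apply_eq_one x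
      funext i
      unfold co
      rw [h2, ← Finset.affineCombination_eq_linear_combination univ _ _ h3,
        b.coord_apply_combination_of_mem (mem_univ i) h3]
  nhds := by
    have hcont : Continuous (Xx b o) := by
      unfold Xx
      fun_prop
    have h0 : Xx b o 0 = o := by simp [Xx]
    have hmem : (Xx b o) ⁻¹' (interior K) ∈ 𝓝 (0 : Fin (d + 1) → ℝ) := by
      refine hcont.continuousAt.preimage_mem_nhds ?_
      rw [h0]
      exact isOpen_interior.mem_nhds hoK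
    obtain ⟨ε, hε, hball⟩ := Metric.mem_nhds_iff.1 hmem
    refine ⟨ε / 2, half_pos hε, fun y hy hy' => ?_⟩
    have h1 : y ∈ Metric.ball (0 : Fin (d + 1) → ℝ) ε := by
      rw [Metric.mem_ball, dist_zero_right]
      refine lt_of_le_of_lt ((pi_norm_le_iff_of_nonneg (half_pos hε).le).2 fun i => ?_)
        (half_lt_self hε)
      rw [Real.norm_eq_abs]
      exact hy' i
    exact ⟨Xx b o y, interior_subset (hball h1), co_Xx ho hy⟩

/-- Sufficiency of `m` hyperplanes, in the form of the problem. -/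
theorem conc_transfer (ho : ∑ i, b i = ((d : ℝ) + 1) • o) {K : Set (EuclideanSpace ℝ (Fin d))}
    {m : ℕ} (h : Conc (co b '' K) m) :
    ∃ w : Fin m → EuclideanSpace ℝ (Fin d), ∃ b' : Fin m → ℝ,
      ∀ u x₀ : EuclideanSpace ℝ (Fin d), u ≠ 0 → x₀ ∈ K →
        (∀ y ∈ K, ⟪u, y⟫_ℝ ≤ ⟪u, x₀⟫_ℝ) →
          ∃ i, ⟪w i, o⟫_ℝ < b' i ∧
            ∀ x ∈ K, ⟪u, x⟫_ℝ = ⟪u, x₀⟫_ℝ → b' i < ⟪w i, x⟫_ℝ := by
  classical
  obtain ⟨W, hW, η, hη, h⟩ := h
  choose v hv using exists_w (b := b) ho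
  refine ⟨fun i => v (if h : i.1 < W.card then (W.equivFin.symm ⟨i.1, h⟩ : Fin (d + 1) → ℝ) else 0),
    fun i => ⟪v (if h : i.1 < W.card then (W.equivFin.symm ⟨i.1, h⟩ : Fin (d + 1) → ℝ) else 0),
      o⟫_ℝ + η, fun u x₀ hu0 hx₀ hmax => ?_⟩
  have hsum : ∑ i, (fun i => ⟪u, b i - o⟫_ℝ) i = 0 := by
    change ∑ i, ⟪u, b i - o⟫_ℝ = 0
    rw [← inner_sum, sum_bo ho, inner_zero_right]
  have hne : (fun i => ⟪u, b i - o⟫_ℝ) ≠ 0 := by
    intro h0
    apply hu0
    have h1 := inner_eq ho u (o + u)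
    rw [h0, inner_add_right, add_sub_cancel_left] at h1
    have h2 : dp (0 : Fin (d + 1) → ℝ) (co b (o + u)) = 0 := by simp [dp]
    rw [h2] at h1
    exact inner_self_eq_zero.1 h1
  obtain ⟨w, hw, hwy⟩ := h _ hsum hne
  have hlt : ((W.equivFin ⟨w, hw⟩ : Fin W.card) : ℕ) < m :=
    lt_of_lt_of_le (W.equivFin ⟨w, hw⟩).2 hW
  refine ⟨⟨(W.equivFin ⟨w, hw⟩ : Fin W.card), hlt⟩, ?_⟩
  have e : (if h : (W.equivFin ⟨w, hw⟩ : Fin W.card).1 < W.card then
      (W.equivFin.symm ⟨(W.equivFin ⟨w, hw⟩ : Fin W.card).1, h⟩ : Fin (d + 1) → ℝ) else 0) = w := by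
    rw [dif_pos (W.equivFin ⟨w, hw⟩).2]
    simp
  simp only [e]
  refine ⟨by linarith, fun x hx hxu => ?_⟩
  have h3 : co b x ∈ F (co b '' K) (fun i => ⟪u, b i - o⟫_ℝ) := by
    refine ⟨⟨x, hx, rfl⟩, ?_⟩
    rintro _ ⟨z, hz, rfl⟩
    rw [← inner_eq ho, ← inner_eq ho, hxu]
    linarith [hmax z hz]
  have h4 := hwy _ h3
  rw [← hv w x] at h4
  linarith

/-- The linear part of `Xx`. -/
noncomputable def Lx (b : AffineBasis (Fin (d + 1)) ℝ (EuclideanSpace ℝ (Fin d)))
    (o : EuclideanSpace ℝ (Fin d)) : (Fin (d + 1) → ℝ) →ₗ[ℝ] EuclideanSpace ℝ (Fin d) :=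
  ∑ i, (LinearMap.proj i : (Fin (d + 1) → ℝ) →ₗ[ℝ] ℝ).smulRight (b i - o)

theorem Lx_apply (y : Fin (d + 1) → ℝ) : Lx b o y = ∑ i, y i • (b i - o) := by
  simp [Lx]

theorem Xx_eq (y : Fin (d + 1) → ℝ) : Xx b o y = o + Lx b o y := by
  rw [Lx_apply]; rfl

/-- The affine map `y ↦ Xx y`. -/
noncomputable def Ax (b : AffineBasis (Fin (d + 1)) ℝ (EuclideanSpace ℝ (Fin d)))
    (o : EuclideanSpace ℝ (Fin d)) : (Fin (d + 1) → ℝ) →ᵃ[ℝ] EuclideanSpace ℝ (Fin d) :=
  (Lx b o).toAffineMap + AffineMap.const ℝ (Fin (d + 1) → ℝ) o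

theorem Ax_apply (y : Fin (d + 1) → ℝ) : Ax b o y = o + Lx b o y := by
  simp [Ax, add_comm]

theorem image_Xx (ho : ∑ i, b i = ((d : ℝ) + 1) • o) (K : Set (EuclideanSpace ℝ (Fin d))) :
    K = Ax b o '' (co b '' K) := by
  ext x
  constructor
  · intro hx
    refine ⟨co b x, ⟨x, hx, rfl⟩, ?_⟩
    rw [Ax_apply, ← Xx_eq, Xx_co ho]
  · rintro ⟨_, ⟨z, hz, rfl⟩, rfl⟩
    rw [Ax_apply, ← Xx_eq, Xx_co ho]
    exact hz

/-- Cross-bodies. -/
theorem cross_transfer (ho : ∑ i, b i = ((d : ℝ) + 1) • o) {K : Set (EuclideanSpace ℝ (Fin d))}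
    (h : Cross (co b '' K)) :
    ∃ v : Fin d → EuclideanSpace ℝ (Fin d), ∃ t : Fin d → ℝ,
      LinearIndependent ℝ v ∧ (∀ i, 0 < t i) ∧
        K = convexHull ℝ (⋃ i, ({o + v i, o - t i • v i} : Set (EuclideanSpace ℝ (Fin d)))) := by
  obtain ⟨hcard, v, hv1, hv2, hv3⟩ := h
  rw [Fintype.card_fin] at hcard
  obtain rfl : d = 3 := by omega
  refine ⟨fun k => Lx b o (v k), fun _ => 1, ?_, fun _ => one_pos, ?_⟩
  · rw [Fintype.linearIndependent_iff] at hv1 ⊢
    intro g hg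
    apply hv1 g
    have h1 : Lx b o (∑ i, g i • v i) = 0 := by
      rw [map_sum, ← hg]
      exact sum_congr rfl fun i _ => by rw [map_smul]
    have h2 : ∑ j, (∑ i, g i • v i) j = 0 := by
      have : ∑ j, (∑ i, g i • v i) j = ∑ i, g i * ∑ j, v i j := by
        simp only [Finset.sum_apply, Pi.smul_apply, smul_eq_mul]
        rw [sum_comm]
        exact sum_congr rfl fun i _ => by rw [mul_sum]
      rw [this]
      exact sum_eq_zero fun i _ => by rw [hv2 i, mul_zero]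
    have h3 := co_Xx (b := b) (o := o) ho h2
    rw [Xx_eq, h1, add_zero, co_o ho] at h3
    exact h3.symm
  · conv_lhs => rw [image_Xx ho K, hv3]
    rw [AffineMap.image_convexHull, Set.image_iUnion]
    congr 1
    refine Set.iUnion_congr fun k => ?_
    rw [Set.image_pair, Ax_apply, Ax_apply, map_neg, one_smul, sub_eq_add_neg]

end Pool.Agent.H153R2.Simplex
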